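import Pool.Agent.Rein83.U.Basic

set_option autoImplicit false

namespace Rein83U

open Set MeasureTheory

/-- A linear map of the plane with determinant one preserves the area. -/
theorem mp_of_mat (a b c d : ℝ) (h : a * d - b * c = 1) :
    MeasurePreserving (fun z : ℝ × ℝ => (a * z.1 + b * z.2, c * z.1 + d * z.2)) volume volume := by
  let f : (ℝ × ℝ) →ₗ[ℝ] (ℝ × ℝ) :=
    { toFun := fun z => (a * z.1 + b * z.2, c * z.1 + d * z.2)
      map_add' := by
        intro x y
        simp only [Prod.fst_add, Prod.snd_add, Prod.mk_add_mk, Prod.mk.injEq]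
        constructor <;> ring
      map_smul' := by
        intro m x
        simp only [Prod.smul_fst, Prod.smul_snd, smul_eq_mul, RingHom.id_apply, Prod.smul_mk,
          Prod.mk.injEq]
        constructor <;> ring }
  have hdet : LinearMap.det f = 1 := by
    rw [← LinearMap.det_toMatrix (Module.Basis.finTwoProd ℝ), Matrix.det_fin_two]
    simp only [LinearMap.toMatrix_apply, Module.Basis.finTwoProd_zero, Module.Basis.finTwoProd_one]
    simp [f, Module.Basis.coe_finTwoProd_repr]
    linarith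
  refine ⟨?_, ?_⟩
  · exact Measurable.prodMk (by fun_prop) (by fun_prop)
  · have := MeasureTheory.Measure.map_linearMap_addHaar_eq_smul_addHaar
      (μ := (volume : Measure (ℝ × ℝ))) (f := f) (by rw [hdet]; exact one_ne_zero)
    rw [hdet] at this
    have h2 : Measure.map f (volume : Measure (ℝ × ℝ)) = volume := by simpa using this
    exact h2

theorem mp_rot : MeasurePreserving rot volume volume := by
  have h := mp_of_mat ca (-ca) ca ca (by have := ca_sq; linarith)
  have e : rot = fun z : ℝ × ℝ => (ca * z.1 + -ca * z.2, ca * z.1 + ca * z.2) := by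
    funext z
    simp only [rot, Prod.mk.injEq]
    constructor <;> ring
  rw [e]; exact h

/-- The shear `(t, y) ↦ (t + y, y)`. -/
def shear (z : ℝ × ℝ) : ℝ × ℝ := (z.1 + z.2, z.2)

theorem mp_shear : MeasurePreserving shear volume volume := by
  have h := mp_of_mat 1 1 0 1 (by norm_num)
  have e : shear = fun z : ℝ × ℝ => (1 * z.1 + 1 * z.2, 0 * z.1 + 1 * z.2) := by
    funext z
    simp only [shear, Prod.mk.injEq]
    constructor <;> ring
  rw [e]; exact h

/-- Area under a graph. -/
theorem region_le (a b : ℝ) (hab : a ≤ b) (ψ : ℝ → ℝ) (hψ : ContinuousOn ψ (Icc a b))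
    (hpos : ∀ t ∈ Icc a b, 0 ≤ ψ t) (R : Set (ℝ × ℝ)) (hR : MeasurableSet R)
    (hsub : ∀ p ∈ R, p.1 ∈ Icc a b ∧ p.2 ∈ Icc 0 (ψ p.1)) :
    volume R ≤ ENNReal.ofReal (∫ t in a..b, ψ t) := by
  have hint : IntegrableOn ψ (Icc a b) := hψ.integrableOn_Icc
  rw [Measure.volume_eq_prod, Measure.prod_apply hR]
  calc ∫⁻ x, volume (Prod.mk x ⁻¹' R)
      ≤ ∫⁻ x, (Icc a b).indicator (fun t => ENNReal.ofReal (ψ t)) x := by
        apply lintegral_mono
        intro x
        by_cases hx : x ∈ Icc a b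
        · rw [indicator_of_mem hx]
          calc volume (Prod.mk x ⁻¹' R) ≤ volume (Icc 0 (ψ x)) := by
                apply measure_mono
                intro y hy
                exact (hsub (x, y) hy).2
            _ = ENNReal.ofReal (ψ x) := by rw [Real.volume_Icc, sub_zero]
        · rw [indicator_of_notMem hx]
          have : Prod.mk x ⁻¹' R = ∅ := by
            ext y
            simp only [mem_preimage, mem_empty_iff_false, iff_false]
            intro hy
            exact hx (hsub (x, y) hy).1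
          show volume (Prod.mk x ⁻¹' R) ≤ 0
          rw [this, measure_empty]
    _ = ∫⁻ x in Icc a b, ENNReal.ofReal (ψ x) := lintegral_indicator measurableSet_Icc _
    _ = ENNReal.ofReal (∫ x in Icc a b, ψ x) := by
        rw [ofReal_integral_eq_lintegral_ofReal hint]
        rw [Filter.EventuallyLE, ae_restrict_iff' measurableSet_Icc]
        exact Filter.Eventually.of_forall fun t ht => hpos t ht
    _ = ENNReal.ofReal (∫ t in a..b, ψ t) := by
        rw [intervalIntegral.integral_of_le hab, integral_Icc_eq_integral_Ioc]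

theorem int1 : ∫ t in (0:ℝ)..(2 * ca - 1), (ca - t / 2) = 1 / 4 := by
  have h : ∫ t in (0:ℝ)..(2 * ca - 1), (ca - t / 2) =
      ca * (2 * ca - 1) - (2 * ca - 1) ^ 2 / 4 := by
    rw [intervalIntegral.integral_sub (by simp) (by
      apply Continuous.intervalIntegrable; fun_prop)]
    rw [intervalIntegral.integral_const, intervalIntegral.integral_div, integral_id]
    simp only [smul_eq_mul]
    ring
  rw [h]
  have := ca_sq
  nlinarith

theorem int3 : ∫ t in ca..(1:ℝ), (1 - t) = 3 / 4 - ca := by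
  have h : ∫ t in ca..(1:ℝ), (1 - t) = (1 - ca) - (1 - ca ^ 2) / 2 := by
    rw [intervalIntegral.integral_sub (by simp) (by
      apply Continuous.intervalIntegrable; fun_prop)]
    rw [intervalIntegral.integral_const, integral_id]
    simp only [smul_eq_mul]
    ring
  rw [h]
  have := ca_sq
  nlinarith

theorem int2 : ∫ t in (2 * ca - 1)..ca, (1 - cc * (1 - ca * t)⁻¹) =
    (1 - ca) - Real.log 2 / 4 := by
  have hsq := ca_sq
  have h0 := ca_pos
  have hgt := ca_gt
  have hlt := ca_lt
  have hpos : ∀ t ∈ uIcc (2 * ca - 1) ca, 0 < 1 - ca * t := by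
    intro t ht
    rw [uIcc_of_le (by linarith)] at ht
    nlinarith [ht.1, ht.2]
  have hder : ∀ t ∈ uIcc (2 * ca - 1) ca,
      HasDerivAt (fun t => t + (1 / 2) * Real.log (1 - ca * t)) (1 - cc * (1 - ca * t)⁻¹) t := by
    intro t ht
    have hp := hpos t ht
    have h1 : HasDerivAt (fun t : ℝ => 1 - ca * t) (-ca) t := by
      simpa using ((hasDerivAt_id t).const_mul ca).const_sub 1
    have h2 := (h1.log hp.ne').const_mul (1 / 2)
    have h3 := (hasDerivAt_id t).add h2
    refine h3.congr_deriv ?_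
    rw [cc_eq]
    field_simp
    ring
  rw [intervalIntegral.integral_eq_sub_of_hasDerivAt hder]
  · have e1 : 1 - ca * ca = 1 / 2 := by rw [hsq]; norm_num
    have e2 : 1 - ca * (2 * ca - 1) = ca := by
      have : ca * (2 * ca - 1) = 2 * (ca * ca) - ca := by ring
      rw [this, hsq]; ring
    rw [e1, e2]
    have hl1 : Real.log (1 / 2) = -Real.log 2 := by rw [one_div, Real.log_inv]
    have hl2 : Real.log ca = -(Real.log 2) / 2 := by
      have h3 : Real.log (ca * ca) = -Real.log 2 := by rw [hsq, hl1]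
      rw [Real.log_mul h0.ne' h0.ne'] at h3
      linarith
    rw [hl1, hl2]
    ring
  · apply ContinuousOn.intervalIntegrable
    apply ContinuousOn.sub continuousOn_const
    apply ContinuousOn.mul continuousOn_const
    apply ContinuousOn.inv₀ (by fun_prop)
    intro t ht
    exact (hpos t ht).ne'

theorem Sect_closed : IsClosed Sect := by
  have : Sect = {z | l7 z ≤ 1} ∩ {z | l2 z ≤ 1} := by
    ext z; simp [Sect]
  rw [this]
  exact (isClosed_le cont7 continuous_const).inter (isClosed_le cont2 continuous_const)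

theorem sector_le : volume (Kst ∩ Sect) ≤
    ENNReal.ofReal (2 - 2 * ca - Real.log 2 / 4) := by
  have hsq := ca_sq
  have h0 := ca_pos
  have hgt := ca_gt
  have hlt := ca_lt
  have hmeas : MeasurableSet (Kst ∩ Sect) := (Kst_closed.inter Sect_closed).measurableSet
  set S := shear ⁻¹' (Kst ∩ Sect) with hS
  have hSm : MeasurableSet S := mp_shear.measurable hmeas
  have hvol : volume (Kst ∩ Sect) = volume S :=
    (mp_shear.measure_preimage hmeas.nullMeasurableSet).symm
  rw [hvol]
  -- facts on the points of S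
  have hfacts : ∀ p ∈ S, 0 ≤ p.1 ∧ 0 ≤ p.2 ∧ P (1 - ca * p.1) (1 - p.2) := by
    rintro ⟨t, y⟩ ⟨hK, hSe⟩
    have e7 : l7 (shear (t, y)) = 1 - ca * t := by simp only [l7, shear]; ring
    have e2 : l2 (shear (t, y)) = 1 - y := by simp only [l2, shear]
    have h1 := hSe.1
    have h2 := hSe.2
    rw [e7] at h1
    rw [e2] at h2
    have hP := hK.1
    rw [e7, e2] at hP
    refine ⟨?_, by simpa using h2, hP⟩
    by_contra hneg
    push Not at hneg
    simp only at hneg
    nlinarith
  have hcover : S ⊆ ((S ∩ {p | p.1 ≤ 2 * ca - 1}) ∪ (S ∩ {p | 2 * ca - 1 ≤ p.1 ∧ p.1 ≤ ca})) ∪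
      (S ∩ {p | ca ≤ p.1}) := by
    intro p hp
    rcases le_total p.1 (2 * ca - 1) with h | h
    · exact Or.inl (Or.inl ⟨hp, h⟩)
    · rcases le_total p.1 ca with h' | h'
      · exact Or.inl (Or.inr ⟨hp, h, h'⟩)
      · exact Or.inr ⟨hp, h'⟩
  have m1 : MeasurableSet (S ∩ {p : ℝ × ℝ | p.1 ≤ 2 * ca - 1}) :=
    hSm.inter (measurableSet_le measurable_fst measurable_const)
  have m2 : MeasurableSet (S ∩ {p : ℝ × ℝ | 2 * ca - 1 ≤ p.1 ∧ p.1 ≤ ca}) :=
    hSm.inter ((measurableSet_le measurable_const measurable_fst).inter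
      (measurableSet_le measurable_fst measurable_const))
  have m3 : MeasurableSet (S ∩ {p : ℝ × ℝ | ca ≤ p.1}) :=
    hSm.inter (measurableSet_le measurable_const measurable_fst)
  have b1 : volume (S ∩ {p : ℝ × ℝ | p.1 ≤ 2 * ca - 1}) ≤ ENNReal.ofReal (1 / 4) := by
    rw [← int1]
    apply region_le _ _ (by linarith) _ (by fun_prop) _ _ m1
    · rintro p ⟨hp, hp1⟩
      obtain ⟨f1, f2, f3⟩ := hfacts p hp
      have hs := P_side2 f3
      refine ⟨⟨f1, hp1⟩, f2, ?_⟩
      have : ca * (1 - ca * p.1) = ca - (ca * ca) * p.1 := by ring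
      rw [this, hsq] at hs
      linarith
    · rintro t ⟨ht1, ht2⟩
      linarith
  have b2 : volume (S ∩ {p : ℝ × ℝ | 2 * ca - 1 ≤ p.1 ∧ p.1 ≤ ca}) ≤
      ENNReal.ofReal ((1 - ca) - Real.log 2 / 4) := by
    rw [← int2]
    have hX : ∀ t ∈ Icc (2 * ca - 1) ca, 1 / 2 ≤ 1 - ca * t ∧ 1 - ca * t ≤ ca := by
      rintro t ⟨ht1, ht2⟩
      constructor
      · nlinarith
      · nlinarith
    apply region_le _ _ (by linarith) _ _ _ _ m2
    · rintro p ⟨hp, hp1, hp2⟩
      obtain ⟨f1, f2, f3⟩ := hfacts p hp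
      obtain ⟨x1, x2⟩ := hX p.1 ⟨hp1, hp2⟩
      have hs := P_mul f3 x1 x2
      refine ⟨⟨hp1, hp2⟩, f2, ?_⟩
      have hxp : 0 < 1 - ca * p.1 := by linarith
      have : cc * (1 - ca * p.1)⁻¹ ≤ 1 - p.2 := by
        rw [← div_eq_mul_inv, div_le_iff₀ hxp]
        linarith
      linarith
    · apply ContinuousOn.sub continuousOn_const
      apply ContinuousOn.mul continuousOn_const
      apply ContinuousOn.inv₀ (by fun_prop)
      intro t ht
      have := (hX t ht).1
      linarith
    · intro t ht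
      obtain ⟨x1, x2⟩ := hX t ht
      have hxp : 0 < 1 - ca * t := by linarith
      have : cc * (1 - ca * t)⁻¹ ≤ 1 := by
        rw [← div_eq_mul_inv, div_le_one hxp, cc_eq]
        linarith
      linarith
  have b3 : volume (S ∩ {p : ℝ × ℝ | ca ≤ p.1}) ≤ ENNReal.ofReal (3 / 4 - ca) := by
    rw [← int3]
    apply region_le _ _ (by linarith) _ (by fun_prop) _ _ m3
    · rintro p ⟨hp, hp1⟩
      have hp1 : ca ≤ p.1 := hp1
      obtain ⟨f1, f2, f3⟩ := hfacts p hp
      have hs := P_side1 f3
      have hy : p.2 ≤ 1 - p.1 := by nlinarith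
      exact ⟨⟨hp1, by linarith⟩, f2, hy⟩
    · rintro t ⟨ht1, ht2⟩
      linarith
  have hl2 : Real.log 2 < 0.7 := by have := Real.log_two_lt_d9; linarith
  calc volume S ≤ volume (((S ∩ {p | p.1 ≤ 2 * ca - 1}) ∪
        (S ∩ {p | 2 * ca - 1 ≤ p.1 ∧ p.1 ≤ ca})) ∪ (S ∩ {p | ca ≤ p.1})) := measure_mono hcover
    _ ≤ (volume (S ∩ {p : ℝ × ℝ | p.1 ≤ 2 * ca - 1}) +
        volume (S ∩ {p : ℝ × ℝ | 2 * ca - 1 ≤ p.1 ∧ p.1 ≤ ca})) +
        volume (S ∩ {p : ℝ × ℝ | ca ≤ p.1}) :=
        (measure_union_le _ _).trans (by gcongr; exact measure_union_le _ _)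
    _ ≤ (ENNReal.ofReal (1 / 4) + ENNReal.ofReal ((1 - ca) - Real.log 2 / 4)) +
        ENNReal.ofReal (3 / 4 - ca) := by gcongr
    _ = ENNReal.ofReal (2 - 2 * ca - Real.log 2 / 4) := by
        rw [← ENNReal.ofReal_add (by norm_num) (by linarith),
          ← ENNReal.ofReal_add (by linarith) (by linarith)]
        congr 1
        ring

theorem rot_iter_mem (n : ℕ) (z : ℝ × ℝ) (hz : z ∈ Kst) : rot^[n] z ∈ Kst := by
  induction n with
  | zero => exact hz
  | succ k ih => rw [Function.iterate_succ_apply']; exact (rot_mem _).mpr ih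

/-- The area of the smoothed octagon. -/
theorem area : volume Kst ≤ ENNReal.ofReal (16 - 8 * Real.sqrt 2 - 2 * Real.log 2) := by
  have hmeas : MeasurableSet (Kst ∩ Sect) := (Kst_closed.inter Sect_closed).measurableSet
  have hsub : Kst ⊆ ⋃ n ∈ Finset.range 8, (rot^[n]) ⁻¹' (Kst ∩ Sect) := by
    intro z hz
    obtain ⟨n, hn, hs⟩ := cover z
    simp only [Finset.mem_range, mem_iUnion, mem_preimage]
    exact ⟨n, hn, rot_iter_mem n z hz, hs⟩
  have hpre : ∀ n : ℕ, volume ((rot^[n]) ⁻¹' (Kst ∩ Sect)) = volume (Kst ∩ Sect) := fun n =>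
    (mp_rot.iterate n).measure_preimage hmeas.nullMeasurableSet
  have hl2 : Real.log 2 < 0.7 := by have := Real.log_two_lt_d9; linarith
  have hlt := ca_lt
  calc volume Kst ≤ volume (⋃ n ∈ Finset.range 8, (rot^[n]) ⁻¹' (Kst ∩ Sect)) :=
        measure_mono hsub
    _ ≤ ∑ n ∈ Finset.range 8, volume ((rot^[n]) ⁻¹' (Kst ∩ Sect)) :=
        measure_biUnion_finset_le _ _
    _ = 8 * volume (Kst ∩ Sect) := by
        simp only [hpre, Finset.sum_const, Finset.card_range, nsmul_eq_mul]
        norm_num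
    _ ≤ 8 * ENNReal.ofReal (2 - 2 * ca - Real.log 2 / 4) := by
        gcongr
        exact sector_le
    _ = ENNReal.ofReal (16 - 8 * Real.sqrt 2 - 2 * Real.log 2) := by
        have : (8 : ENNReal) = ENNReal.ofReal 8 := by norm_num
        rw [this, ← ENNReal.ofReal_mul (by norm_num)]
        congr 1
        unfold ca
        ring

end Rein83U
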