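import Pool.Agent.Rein83.U.Defs

set_option autoImplicit false

namespace Rein83U

open Set

/-! ### Rotation by 45 degrees -/

theorem l1_rot (z : ℝ × ℝ) : l1 (rot z) = l0 z := by
  have h := ca_sq
  simp only [l1, l0, rot]
  have : ca * (ca * (z.1 - z.2) + ca * (z.1 + z.2)) = 2 * (ca * ca) * z.1 := by ring
  rw [this, h]; ring

theorem l2_rot (z : ℝ × ℝ) : l2 (rot z) = l1 z := by
  simp only [l2, l1, rot]

theorem l3_rot (z : ℝ × ℝ) : l3 (rot z) = l2 z := by
  have h := ca_sq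
  simp only [l3, l2, rot]
  have : ca * (ca * (z.1 - z.2) - ca * (z.1 + z.2)) = -2 * (ca * ca) * z.2 := by ring
  rw [this, h]; ring

theorem l4_rot (z : ℝ × ℝ) : l4 (rot z) = l3 z := by
  simp only [l4, l3, rot]

theorem l5_rot (z : ℝ × ℝ) : l5 (rot z) = l4 z := by
  have h := ca_sq
  simp only [l5, l4, rot]
  have : ca * (ca * (z.1 - z.2) + ca * (z.1 + z.2)) = 2 * (ca * ca) * z.1 := by ring
  rw [this, h]; ring

theorem l6_rot (z : ℝ × ℝ) : l6 (rot z) = l5 z := by
  simp only [l6, l5, rot]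

theorem l7_rot (z : ℝ × ℝ) : l7 (rot z) = l6 z := by
  have h := ca_sq
  simp only [l7, l6, rot]
  have : ca * (ca * (z.1 - z.2) - ca * (z.1 + z.2)) = -2 * (ca * ca) * z.2 := by ring
  rw [this, h]; ring

theorem l0_rot (z : ℝ × ℝ) : l0 (rot z) = l7 z := by
  simp only [l0, l7, rot]

theorem rot_mem (z : ℝ × ℝ) : rot z ∈ Kst ↔ z ∈ Kst := by
  simp only [Kst, mem_setOf_eq, l0_rot, l1_rot, l2_rot, l3_rot, l4_rot, l5_rot, l6_rot, l7_rot]
  tauto

theorem rot_add (z w : ℝ × ℝ) : rot (z + w) = rot z + rot w := by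
  simp only [rot, Prod.fst_add, Prod.snd_add, Prod.mk_add_mk, Prod.mk.injEq]
  constructor <;> ring

theorem rot_sub (z w : ℝ × ℝ) : rot (z - w) = rot z - rot w := by
  simp only [rot, Prod.fst_sub, Prod.snd_sub, Prod.mk_sub_mk, Prod.mk.injEq]
  constructor <;> ring

/-- `rot` preserves determinants. -/
theorem rot_det (z w : ℝ × ℝ) : (rot z).1 * (rot w).2 - (rot z).2 * (rot w).1 = z.1 * w.2 - z.2 * w.1 := by
  have h := ca_sq
  simp only [rot]
  have : ca * (z.1 - z.2) * (ca * (w.1 + w.2)) - ca * (z.1 + z.2) * (ca * (w.1 - w.2))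
      = (ca * ca) * (2 * (z.1 * w.2 - z.2 * w.1)) := by ring
  rw [this, h]; ring

/-- The inverse rotation. -/
noncomputable def rotInv (z : ℝ × ℝ) : ℝ × ℝ := (ca * (z.1 + z.2), ca * (z.2 - z.1))

theorem rot_rotInv (z : ℝ × ℝ) : rot (rotInv z) = z := by
  have h := ca_sq
  simp only [rot, rotInv]
  ext
  · simp only
    have : ca * (ca * (z.1 + z.2) - ca * (z.2 - z.1)) = (ca * ca) * (2 * z.1) := by ring
    rw [this, h]; ring
  · simp only
    have : ca * (ca * (z.1 + z.2) + ca * (z.2 - z.1)) = (ca * ca) * (2 * z.2) := by ring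
    rw [this, h]; ring

theorem rotInv_rot (z : ℝ × ℝ) : rotInv (rot z) = z := by
  have h := ca_sq
  simp only [rot, rotInv]
  ext
  · simp only
    have : ca * (ca * (z.1 - z.2) + ca * (z.1 + z.2)) = (ca * ca) * (2 * z.1) := by ring
    rw [this, h]; ring
  · simp only
    have : ca * (ca * (z.1 + z.2) - ca * (z.1 - z.2)) = (ca * ca) * (2 * z.2) := by ring
    rw [this, h]; ring

theorem rotInv_mem (z : ℝ × ℝ) : rotInv z ∈ Kst ↔ z ∈ Kst := by
  rw [← rot_mem (rotInv z), rot_rotInv]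

theorem continuous_rot : Continuous rot := by
  unfold rot; fun_prop

theorem continuous_rotInv : Continuous rotInv := by
  unfold rotInv; fun_prop

/-- `rot` as a homeomorphism. -/
noncomputable def rotH : (ℝ × ℝ) ≃ₜ (ℝ × ℝ) where
  toFun := rot
  invFun := rotInv
  left_inv := rotInv_rot
  right_inv := rot_rotInv
  continuous_toFun := continuous_rot
  continuous_invFun := continuous_rotInv

theorem rot_frontier (z : ℝ × ℝ) : rot z ∈ frontier Kst ↔ z ∈ frontier Kst := by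
  have h1 : rotH ⁻¹' Kst = Kst := by
    ext w; exact rot_mem w
  have h2 := rotH.preimage_frontier Kst
  rw [h1] at h2
  constructor
  · intro h
    rw [← h2]; exact h
  · intro h
    rw [← h2] at h; exact h

theorem rotInv_frontier (z : ℝ × ℝ) : rotInv z ∈ frontier Kst ↔ z ∈ frontier Kst := by
  rw [← rot_frontier (rotInv z), rot_rotInv]

theorem rotInv_add (z w : ℝ × ℝ) : rotInv (z + w) = rotInv z + rotInv w := by
  simp only [rotInv, Prod.fst_add, Prod.snd_add, Prod.mk_add_mk, Prod.mk.injEq]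
  constructor <;> ring

theorem rotInv_sub (z w : ℝ × ℝ) : rotInv (z - w) = rotInv z - rotInv w := by
  simp only [rotInv, Prod.fst_sub, Prod.snd_sub, Prod.mk_sub_mk, Prod.mk.injEq]
  constructor <;> ring

theorem rotInv_det (z w : ℝ × ℝ) :
    (rotInv z).1 * (rotInv w).2 - (rotInv z).2 * (rotInv w).1 = z.1 * w.2 - z.2 * w.1 := by
  rw [← rot_det (rotInv z) (rotInv w), rot_rotInv, rot_rotInv]

/-- The sector of corner 0. -/
def Sect : Set (ℝ × ℝ) := {z | l7 z ≤ 1 ∧ l2 z ≤ 1}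

/-- The eight rotated sectors cover the plane. -/
theorem cover (z : ℝ × ℝ) : ∃ n : ℕ, n < 8 ∧ rot^[n] z ∈ Sect := by
  have hc := ca_pos
  have e : ∀ t : ℝ, 0 ≤ t → 0 ≤ ca * t := fun t ht => mul_nonneg hc.le ht
  have k0 : ∀ w : ℝ × ℝ, w ∈ Sect ↔ 0 ≤ w.1 - w.2 ∧ 0 ≤ w.2 := by
    intro w
    simp only [Sect, mem_setOf_eq, l7, l2]
    constructor
    · rintro ⟨h1, h2⟩
      refine ⟨?_, by linarith⟩
      by_contra h
      push Not at h
      nlinarith
    · rintro ⟨h1, h2⟩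
      exact ⟨by linarith [e _ h1], by linarith⟩
  have r7 : ∀ w : ℝ × ℝ, rot w ∈ Sect ↔ 0 ≤ -w.2 ∧ 0 ≤ w.1 + w.2 := by
    intro w
    have e1 : (rot w).1 - (rot w).2 = (2 * ca) * (-w.2) := by simp only [rot]; ring
    have e2 : (rot w).2 = ca * (w.1 + w.2) := rfl
    rw [k0, e1, e2]
    constructor
    · rintro ⟨h1, h2⟩
      exact ⟨by by_contra h; push Not at h; nlinarith, by by_contra h; push Not at h; nlinarith⟩
    · rintro ⟨h1, h2⟩
      exact ⟨by positivity, by positivity⟩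
  have two : ∀ w : ℝ × ℝ, rot (rot w) = (-w.2, w.1) := by
    intro w
    have h := ca_sq
    simp only [rot]
    ext
    · simp only
      have : ca * (ca * (w.1 - w.2) - ca * (w.1 + w.2)) = (ca * ca) * (-2 * w.2) := by ring
      rw [this, h]; ring
    · simp only
      have : ca * (ca * (w.1 - w.2) + ca * (w.1 + w.2)) = (ca * ca) * (2 * w.1) := by ring
      rw [this, h]; ring
  obtain ⟨x, y⟩ := z
  have t2 : rot^[2] (x, y) = (-y, x) := by simp [Function.iterate_succ, two]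
  have t4 : rot^[4] (x, y) = (-x, -y) := by simp [Function.iterate_succ, two]
  have t6 : rot^[6] (x, y) = (y, -x) := by simp [Function.iterate_succ, two]
  have t3 : rot^[3] (x, y) = rot (-y, x) := by
    rw [Function.iterate_succ_apply', t2]
  have t5 : rot^[5] (x, y) = rot (-x, -y) := by
    rw [Function.iterate_succ_apply', t4]
  have t7 : rot^[7] (x, y) = rot (y, -x) := by
    rw [Function.iterate_succ_apply', t6]
  rcases le_total 0 x with hx | hx <;> rcases le_total 0 y with hy | hy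
  · rcases le_total y x with h | h
    · exact ⟨0, by norm_num, by rw [Function.iterate_zero, id, k0]; simp; exact ⟨h, hy⟩⟩
    · exact ⟨7, by norm_num, by rw [t7, r7]; simp; exact ⟨hx, by linarith⟩⟩
  · rcases le_total (-y) x with h | h
    · exact ⟨1, by norm_num, by rw [Function.iterate_one, r7]; simp; exact ⟨hy, by linarith⟩⟩
    · exact ⟨2, by norm_num, by rw [t2, k0]; simp; exact ⟨by linarith, hx⟩⟩
  · rcases le_total (-x) y with h | h
    · exact ⟨6, by norm_num, by rw [t6, k0]; simp; exact ⟨by linarith, hx⟩⟩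
    · exact ⟨5, by norm_num, by rw [t5, r7]; simp; exact ⟨hy, by linarith⟩⟩
  · rcases le_total x y with h | h
    · exact ⟨4, by norm_num, by rw [t4, k0]; simp; exact ⟨h, hy⟩⟩
    · exact ⟨3, by norm_num, by rw [t3, r7]; simp; exact ⟨hx, by linarith⟩⟩

/-! ### Basic properties of the body -/

theorem P_convex {X Y X' Y' t u : ℝ} (h : P X Y) (h' : P X' Y') (ht : 0 ≤ t) (hu : 0 ≤ u) (htu : t + u = 1) :
    P (t * X + u * X') (t * Y + u * Y') := by
  intro s hs
  have h1 := mul_le_mul_of_nonneg_left (h s hs) ht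
  have h2 := mul_le_mul_of_nonneg_left (h' s hs) hu
  have e : 2 * cc * s = t * (2 * cc * s) + u * (2 * cc * s) := by rw [← add_mul, htu, one_mul]
  nlinarith

theorem Kst_convex : Convex ℝ Kst := by
  intro z hz w hw t u ht hu htu
  have aff : ∀ (l : ℝ × ℝ → ℝ), (∃ p q : ℝ, ∀ v : ℝ × ℝ, l v = 1 + (p * v.1 + q * v.2)) →
      l (t • z + u • w) = t * l z + u * l w := by
    rintro l ⟨p, q, hl⟩
    rw [hl, hl, hl]
    simp only [Prod.fst_add, Prod.snd_add, Prod.smul_fst, Prod.smul_snd, smul_eq_mul]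
    have : (1 : ℝ) = t + u := htu.symm
    linear_combination this
  have a0 : l0 (t • z + u • w) = t * l0 z + u * l0 w := aff l0 ⟨-1, 0, fun v => by simp only [l0]; ring⟩
  have a1 : l1 (t • z + u • w) = t * l1 z + u * l1 w := aff l1 ⟨-ca, -ca, fun v => by simp only [l1]; ring⟩
  have a2 : l2 (t • z + u • w) = t * l2 z + u * l2 w := aff l2 ⟨0, -1, fun v => by simp only [l2]; ring⟩
  have a3 : l3 (t • z + u • w) = t * l3 z + u * l3 w := aff l3 ⟨ca, -ca, fun v => by simp only [l3]; ring⟩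
  have a4 : l4 (t • z + u • w) = t * l4 z + u * l4 w := aff l4 ⟨1, 0, fun v => by simp only [l4]; ring⟩
  have a5 : l5 (t • z + u • w) = t * l5 z + u * l5 w := aff l5 ⟨ca, ca, fun v => by simp only [l5]; ring⟩
  have a6 : l6 (t • z + u • w) = t * l6 z + u * l6 w := aff l6 ⟨0, 1, fun v => by simp only [l6]; ring⟩
  have a7 : l7 (t • z + u • w) = t * l7 z + u * l7 w := aff l7 ⟨-ca, ca, fun v => by simp only [l7]; ring⟩
  obtain ⟨h1, h2, h3, h4, h5, h6, h7, h8⟩ := hz
  obtain ⟨g1, g2, g3, g4, g5, g6, g7, g8⟩ := hw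
  refine ⟨?_, ?_, ?_, ?_, ?_, ?_, ?_, ?_⟩
  · rw [a7, a2]; exact P_convex h1 g1 ht hu htu
  · rw [a0, a3]; exact P_convex h2 g2 ht hu htu
  · rw [a1, a4]; exact P_convex h3 g3 ht hu htu
  · rw [a2, a5]; exact P_convex h4 g4 ht hu htu
  · rw [a3, a6]; exact P_convex h5 g5 ht hu htu
  · rw [a4, a7]; exact P_convex h6 g6 ht hu htu
  · rw [a5, a0]; exact P_convex h7 g7 ht hu htu
  · rw [a6, a1]; exact P_convex h8 g8 ht hu htu

theorem Kst_neg : ∀ z ∈ Kst, -z ∈ Kst := by
  intro z hz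
  have b0 : l0 (-z) = l4 z := by simp [l0, l4]
  have b1 : l1 (-z) = l5 z := by simp only [l1, l5, Prod.fst_neg, Prod.snd_neg]; ring
  have b2 : l2 (-z) = l6 z := by simp [l2, l6]
  have b3 : l3 (-z) = l7 z := by simp only [l3, l7, Prod.fst_neg, Prod.snd_neg]; ring
  have b4 : l4 (-z) = l0 z := by simp only [l4, l0, Prod.fst_neg]; ring
  have b5 : l5 (-z) = l1 z := by simp only [l1, l5, Prod.fst_neg, Prod.snd_neg]; ring
  have b6 : l6 (-z) = l2 z := by simp only [l6, l2, Prod.snd_neg]; ring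
  have b7 : l7 (-z) = l3 z := by simp only [l3, l7, Prod.fst_neg, Prod.snd_neg]; ring
  obtain ⟨h1, h2, h3, h4, h5, h6, h7, h8⟩ := hz
  refine ⟨?_, ?_, ?_, ?_, ?_, ?_, ?_, ?_⟩ <;> simp only [b0, b1, b2, b3, b4, b5, b6, b7] <;> assumption

theorem P_closed (f g : ℝ × ℝ → ℝ) (hf : Continuous f) (hg : Continuous g) : IsClosed {z | P (f z) (g z)} := by
  have : {z | P (f z) (g z)} = ⋂ s ∈ Icc (1 / 2 : ℝ) ca, {z | 2 * cc * s ≤ cc * f z + s ^ 2 * g z} := by
    ext z
    simp only [P, mem_setOf_eq, mem_iInter]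
  rw [this]
  refine isClosed_biInter fun s _ => ?_
  exact isClosed_le continuous_const ((continuous_const.mul hf).add (continuous_const.mul hg))

theorem cont0 : Continuous l0 := by unfold l0; fun_prop
theorem cont1 : Continuous l1 := by unfold l1; fun_prop
theorem cont2 : Continuous l2 := by unfold l2; fun_prop
theorem cont3 : Continuous l3 := by unfold l3; fun_prop
theorem cont4 : Continuous l4 := by unfold l4; fun_prop
theorem cont5 : Continuous l5 := by unfold l5; fun_prop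
theorem cont6 : Continuous l6 := by unfold l6; fun_prop
theorem cont7 : Continuous l7 := by unfold l7; fun_prop

theorem Kst_closed : IsClosed Kst := by
  have h : Kst = {z | P (l7 z) (l2 z)} ∩ {z | P (l0 z) (l3 z)} ∩ {z | P (l1 z) (l4 z)} ∩ {z | P (l2 z) (l5 z)} ∩
      {z | P (l3 z) (l6 z)} ∩ {z | P (l4 z) (l7 z)} ∩ {z | P (l5 z) (l0 z)} ∩ {z | P (l6 z) (l1 z)} := by
    ext z
    simp only [Kst, mem_setOf_eq, mem_inter_iff]
    tauto
  rw [h]
  exact (((((((P_closed _ _ cont7 cont2).inter (P_closed _ _ cont0 cont3)).inter (P_closed _ _ cont1 cont4)).inter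
    (P_closed _ _ cont2 cont5)).inter (P_closed _ _ cont3 cont6)).inter (P_closed _ _ cont4 cont7)).inter
    (P_closed _ _ cont5 cont0)).inter (P_closed _ _ cont6 cont1)

/-- The body is inside the square `[-1,1]^2`: indeed all side functions are nonnegative. -/
theorem Kst_sides {z : ℝ × ℝ} (hz : z ∈ Kst) : 0 ≤ l0 z ∧ 0 ≤ l2 z ∧ 0 ≤ l4 z ∧ 0 ≤ l6 z ∧
    0 ≤ l1 z ∧ 0 ≤ l3 z ∧ 0 ≤ l5 z ∧ 0 ≤ l7 z := by
  obtain ⟨h1, h2, h3, h4, h5, h6, h7, h8⟩ := hz
  have hsq := ca_sq
  have hp := ca_pos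
  have s1 := P_side1 h1
  have s2 := P_side1 h2
  have s3 := P_side1 h3
  have s4 := P_side1 h4
  have s5 := P_side1 h5
  have s6 := P_side1 h6
  have s7 := P_side1 h7
  have s8 := P_side1 h8
  simp only [l0, l1, l2, l3, l4, l5, l6, l7] at *
  refine ⟨?_, ?_, ?_, ?_, ?_, ?_, ?_, ?_⟩ <;> nlinarith

theorem Kst_bdd : Kst ⊆ Icc ((-1, -1) : ℝ × ℝ) (1, 1) := by
  intro z hz
  obtain ⟨h0, h2, h4, h6, -⟩ := Kst_sides hz
  simp only [l0, l2, l4, l6] at *
  exact ⟨⟨by simp; linarith, by simp; linarith⟩, ⟨by simp; linarith, by simp; linarith⟩⟩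

theorem Kst_compact : IsCompact Kst := by
  refine (isCompact_Icc (a := ((-1, -1) : ℝ × ℝ)) (b := (1, 1))).of_isClosed_subset Kst_closed Kst_bdd

/-- A neighbourhood of 0: all side functions at least `7/10`. -/
theorem P_of_large {X Y : ℝ} (hX : 7 / 10 ≤ X) (hY : 7 / 10 ≤ Y) : P X Y := by
  apply P_of_mul (by linarith) (by linarith)
  have h := ca_lt
  rw [cc_eq]
  nlinarith

theorem Kst_nhds : Kst ∈ nhds (0 : ℝ × ℝ) := by
  have hU : IsOpen {z : ℝ × ℝ | 7 / 10 < l0 z ∧ 7 / 10 < l1 z ∧ 7 / 10 < l2 z ∧ 7 / 10 < l3 z ∧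
      7 / 10 < l4 z ∧ 7 / 10 < l5 z ∧ 7 / 10 < l6 z ∧ 7 / 10 < l7 z} := by
    refine (isOpen_lt continuous_const cont0).inter ((isOpen_lt continuous_const cont1).inter
      ((isOpen_lt continuous_const cont2).inter ((isOpen_lt continuous_const cont3).inter
      ((isOpen_lt continuous_const cont4).inter ((isOpen_lt continuous_const cont5).inter
      ((isOpen_lt continuous_const cont6).inter (isOpen_lt continuous_const cont7)))))))
  refine Filter.mem_of_superset (hU.mem_nhds ?_) ?_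
  · simp only [mem_setOf_eq, l0, l1, l2, l3, l4, l5, l6, l7, Prod.fst_zero, Prod.snd_zero]
    norm_num
  · rintro z ⟨h0, h1, h2, h3, h4, h5, h6, h7⟩
    exact ⟨P_of_large h7.le h2.le, P_of_large h0.le h3.le, P_of_large h1.le h4.le, P_of_large h2.le h5.le,
      P_of_large h3.le h6.le, P_of_large h4.le h7.le, P_of_large h5.le h0.le, P_of_large h6.le h1.le⟩

end Rein83U
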