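import Pool.Agent.Rein83.U.Basic

set_option autoImplicit false

namespace Rein83U

open Set

/-- Uniformly strict corner condition. -/
def SP (X Y : ℝ) : Prop := ∃ ε : ℝ, 0 < ε ∧ P (X - ε) (Y - ε)

theorem P_dich {X Y : ℝ} (h : P X Y) : SP X Y ∨ ∃ s ∈ Icc (1 / 2 : ℝ) ca, 2 * cc * s = cc * X + s ^ 2 * Y := by
  have hne : (Icc (1 / 2 : ℝ) ca).Nonempty := ⟨1 / 2, by simp; linarith [ca_gt]⟩
  have hcont : ContinuousOn (fun s : ℝ => cc * X + s ^ 2 * Y - 2 * cc * s) (Icc (1 / 2 : ℝ) ca) := by fun_prop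
  obtain ⟨s, hs, hmin⟩ := isCompact_Icc.exists_isMinOn hne hcont
  rcases (h s hs).lt_or_eq with hlt | heq
  · left
    set μ := cc * X + s ^ 2 * Y - 2 * cc * s with hμ
    have hμ0 : 0 < μ := by linarith
    refine ⟨μ / 2, by linarith, ?_⟩
    intro t ht
    have h1 : μ ≤ cc * X + t ^ 2 * Y - 2 * cc * t := hmin ht
    have hcc : cc ≤ 1 := by rw [cc_eq]; linarith [ca_lt]
    have ht2 : t ^ 2 ≤ 1 := by
      have := ht.1
      have := ht.2
      have := ca_lt
      nlinarith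
    have h2 : cc * (μ / 2) ≤ 1 * (μ / 2) := mul_le_mul_of_nonneg_right hcc (by linarith)
    have h3 : t ^ 2 * (μ / 2) ≤ 1 * (μ / 2) := mul_le_mul_of_nonneg_right ht2 (by linarith)
    nlinarith
  · right
    exact ⟨s, hs, heq⟩

theorem small_step {d e Y : ℝ} (hd : 0 < d) (h : ∀ δ, 0 < δ → δ ≤ d → 0 ≤ δ * (e + Y * δ)) : 0 ≤ e := by
  by_contra hneg
  push Not at hneg
  set δ := min d (-e / (2 * (|Y| + 1))) with hδ
  have hY : 0 < 2 * (|Y| + 1) := by positivity
  have hδ0 : 0 < δ := lt_min hd (div_pos (by linarith) hY)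
  have h1 := h δ hδ0 (min_le_left _ _)
  have h2 : 0 ≤ e + Y * δ := by
    by_contra h3
    push Not at h3
    nlinarith
  have h4 : Y * δ ≤ |Y| * δ := mul_le_mul_of_nonneg_right (le_abs_self Y) hδ0.le
  have h5 : δ * (2 * (|Y| + 1)) ≤ -e := by
    have : δ ≤ -e / (2 * (|Y| + 1)) := min_le_right _ _
    rwa [le_div_iff₀ hY] at this
  nlinarith [abs_nonneg Y]

/-- Where equality occurs in the corner condition. -/
theorem P_tight {X Y s : ℝ} (h : P X Y) (hs : s ∈ Icc (1 / 2 : ℝ) ca) (he : 2 * cc * s = cc * X + s ^ 2 * Y) :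
    (X = s ∧ Y = cc / s) ∨ X + ca * Y = 1 ∨ ca * X + Y = 1 := by
  have hsq := ca_sq
  have hp := ca_pos
  have hcp := cc_pos
  have hs0 : 0 < s := by linarith [hs.1]
  rcases hs.1.eq_or_lt with h1 | h1
  · right; left
    subst h1
    rw [cc_eq] at he
    have h2 : 4 * ca * (2 * (ca / 2) * (1 / 2)) = 4 * ca * (ca / 2 * X + (1 / 2) ^ 2 * Y) := by rw [he]
    have e1 : 4 * ca * (2 * (ca / 2) * (1 / 2)) = 1 := by
      calc _ = 2 * (ca * ca) := by ring
        _ = 1 := by rw [hsq]; norm_num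
    have e2 : 4 * ca * (ca / 2 * X + (1 / 2) ^ 2 * Y) = X + ca * Y := by
      calc _ = 2 * (ca * ca) * X + ca * Y := by ring
        _ = X + ca * Y := by rw [hsq]; ring
    linarith
  rcases hs.2.eq_or_lt with h2 | h2
  · right; right
    rw [h2, cc_eq] at he
    have e1 : ca ^ 2 = 1 / 2 := by
      have : ca ^ 2 = ca * ca := by ring
      rw [this]; exact hsq
    rw [e1] at he
    nlinarith
  · left
    have f1 : 0 ≤ 2 * s * Y - 2 * cc := by
      refine small_step (d := ca - s) (Y := Y) (by linarith) fun δ hδ hδ' => ?_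
      have := h (s + δ) ⟨by linarith, by linarith⟩
      nlinarith
    have f2 : 0 ≤ -(2 * s * Y - 2 * cc) := by
      refine small_step (d := s - 1 / 2) (Y := Y) (by linarith) fun δ hδ hδ' => ?_
      have := h (s - δ) ⟨by linarith, by linarith⟩
      nlinarith
    have hY : s * Y = cc := by linarith
    constructor
    · have h3 : cc * X = cc * s := by
        have : s ^ 2 * Y = s * cc := by rw [← hY]; ring
        rw [this] at he
        linarith
      exact mul_left_cancel₀ hcp.ne' h3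
    · rw [eq_div_iff hs0.ne']; linarith

/-- Flat part of a side. -/
theorem P_flat {X Y : ℝ} (h : P X Y) (he : X + ca * Y = 1) : ca ≤ Y := by
  have hsq := ca_sq
  have hp := ca_pos
  have h0 : 0 ≤ Y - ca := by
    refine small_step (d := ca - 1 / 2) (Y := Y) (by linarith [ca_gt]) fun δ hδ hδ' => ?_
    have h1 := h (1 / 2 + δ) ⟨by linarith, by linarith⟩
    rw [cc_eq] at h1
    have hX : X = 1 - ca * Y := by linarith
    have e1 : ca / 2 * X = ca / 2 - Y / 4 := by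
      rw [hX]
      calc ca / 2 * (1 - ca * Y) = ca / 2 - (ca * ca) * Y / 2 := by ring
        _ = ca / 2 - Y / 4 := by rw [hsq]; ring
    rw [e1] at h1
    nlinarith
  linarith

theorem P_flat' {X Y : ℝ} (h : P X Y) (he : ca * X + Y = 1) : ca ≤ X :=
  P_flat (P_symm h) (by linarith)

/-- The hexagon property of a point. -/
def HexAt (p : ℝ × ℝ) : Prop := ∃ q ∈ Kst, q - p ∈ Kst ∧ p.1 * q.2 - p.2 * q.1 = Dst

theorem hexAt_of_rot {p : ℝ × ℝ} (h : HexAt (rot p)) : HexAt p := by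
  obtain ⟨q, hq, hq', hd⟩ := h
  refine ⟨rotInv q, (rotInv_mem q).2 hq, ?_, ?_⟩
  · have : rotInv q - p = rotInv (q - rot p) := by rw [rotInv_sub, rotInv_rot]
    rw [this]
    exact (rotInv_mem _).2 hq'
  · have h1 := rotInv_det (rot p) q
    rw [rotInv_rot] at h1
    rw [h1]; exact hd

/-- interior criterion -/
theorem interior_of {z : ℝ × ℝ} (h1 : SP (l7 z) (l2 z)) (h2 : SP (l0 z) (l3 z)) (h3 : SP (l1 z) (l4 z))
    (h4 : SP (l2 z) (l5 z)) (h5 : SP (l3 z) (l6 z)) (h6 : SP (l4 z) (l7 z)) (h7 : SP (l5 z) (l0 z))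
    (h8 : SP (l6 z) (l1 z)) : z ∈ interior Kst := by
  have key : ∀ (f g : ℝ × ℝ → ℝ), Continuous f → Continuous g → SP (f z) (g z) →
      ∀ᶠ w in nhds z, P (f w) (g w) := by
    rintro f g hf hg ⟨ε, hε, hP⟩
    have e1 : ∀ᶠ w in nhds z, f z - ε < f w :=
      (hf.continuousAt (x := z)).eventually (lt_mem_nhds (by linarith))
    have e2 : ∀ᶠ w in nhds z, g z - ε < g w :=
      (hg.continuousAt (x := z)).eventually (lt_mem_nhds (by linarith))
    filter_upwards [e1, e2] with w hw1 hw2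
    exact P_mono hP hw1.le hw2.le
  rw [mem_interior_iff_mem_nhds]
  filter_upwards [key _ _ cont7 cont2 h1, key _ _ cont0 cont3 h2, key _ _ cont1 cont4 h3,
    key _ _ cont2 cont5 h4, key _ _ cont3 cont6 h5, key _ _ cont4 cont7 h6, key _ _ cont5 cont0 h7,
    key _ _ cont6 cont1 h8] with w a1 a2 a3 a4 a5 a6 a7 a8
  exact ⟨a1, a2, a3, a4, a5, a6, a7, a8⟩

section main

variable (hexArc : ∀ (p : ℝ × ℝ) (s : ℝ), 1 / 2 ≤ s → s ≤ ca → l7 p = s → l2 p = cc / s → HexAt p)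
variable (hexSide : ∀ t : ℝ, |t| ≤ 1 - ca → HexAt (t, 1))

include hexSide in
theorem hexAt_side2 {z : ℝ × ℝ} (hz : z ∈ Kst) (h : l2 z = 0) : HexAt z := by
  obtain ⟨x, y⟩ := z
  have hy : y = 1 := by simp only [l2] at h; linarith
  subst hy
  apply hexSide
  obtain ⟨-, h2, h3, -⟩ := hz
  have hsq := ca_sq
  have hp := ca_pos
  have g1 : ca ≤ l4 (x, 1) := by
    apply P_flat h3
    simp only [l1, l4]; ring
  have g2 : ca ≤ l0 (x, 1) := by
    apply P_flat' h2
    simp only [l0, l3]; ring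
  simp only [l4, l0] at g1 g2
  rw [abs_le]
  constructor <;> linarith

include hexArc hexSide in
theorem hexAt_corner0 {z : ℝ × ℝ} (hz : z ∈ Kst) (h : ¬ SP (l7 z) (l2 z)) : HexAt z := by
  rcases P_dich hz.1 with h1 | ⟨s, hs, he⟩
  · exact absurd h1 h
  · rcases P_tight hz.1 hs he with ⟨hX, hY⟩ | h2 | h2
    · exact hexArc z s hs.1 hs.2 hX hY
    · -- l0 z = 0
      have hsq := ca_sq
      apply hexAt_of_rot
      apply hexAt_of_rot
      apply hexAt_side2 hexSide ((rot_mem _).2 ((rot_mem _).2 hz))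
      rw [l2_rot, l1_rot]
      simp only [l7, l2, l0] at *
      have : ca * (ca * (z.1 - z.2)) = ca * ca * (z.1 - z.2) := by ring
      have hp := ca_pos
      nlinarith
    · -- l1 z = 0
      have hsq := ca_sq
      apply hexAt_of_rot
      apply hexAt_side2 hexSide ((rot_mem _).2 hz)
      rw [l2_rot]
      simp only [l7, l2, l1] at *
      have e1 : ca * (1 - ca * (z.1 - z.2)) = ca - (ca * ca) * (z.1 - z.2) := by ring
      rw [e1, hsq] at h2
      have hxy : z.1 + z.2 = 2 * ca := by linarith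
      rw [hxy]
      linarith

include hexArc hexSide in
theorem hex_of (p : ℝ × ℝ) (hp : p ∈ frontier Kst) : HexAt p := by
  have hpK : p ∈ Kst := Kst_closed.frontier_subset hp
  have c0 : ∀ z ∈ Kst, ¬ SP (l7 z) (l2 z) → HexAt z := fun z hz h => hexAt_corner0 hexArc hexSide hz h
  have c7 : ∀ z ∈ Kst, ¬ SP (l6 z) (l1 z) → HexAt z := fun z hz h =>
    hexAt_of_rot (c0 (rot z) ((rot_mem z).2 hz) (by rw [l7_rot, l2_rot]; exact h))
  have c6 : ∀ z ∈ Kst, ¬ SP (l5 z) (l0 z) → HexAt z := fun z hz h =>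
    hexAt_of_rot (c7 (rot z) ((rot_mem z).2 hz) (by rw [l6_rot, l1_rot]; exact h))
  have c5 : ∀ z ∈ Kst, ¬ SP (l4 z) (l7 z) → HexAt z := fun z hz h =>
    hexAt_of_rot (c6 (rot z) ((rot_mem z).2 hz) (by rw [l5_rot, l0_rot]; exact h))
  have c4 : ∀ z ∈ Kst, ¬ SP (l3 z) (l6 z) → HexAt z := fun z hz h =>
    hexAt_of_rot (c5 (rot z) ((rot_mem z).2 hz) (by rw [l4_rot, l7_rot]; exact h))
  have c3 : ∀ z ∈ Kst, ¬ SP (l2 z) (l5 z) → HexAt z := fun z hz h =>
    hexAt_of_rot (c4 (rot z) ((rot_mem z).2 hz) (by rw [l3_rot, l6_rot]; exact h))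
  have c2 : ∀ z ∈ Kst, ¬ SP (l1 z) (l4 z) → HexAt z := fun z hz h =>
    hexAt_of_rot (c3 (rot z) ((rot_mem z).2 hz) (by rw [l2_rot, l5_rot]; exact h))
  have c1 : ∀ z ∈ Kst, ¬ SP (l0 z) (l3 z) → HexAt z := fun z hz h =>
    hexAt_of_rot (c2 (rot z) ((rot_mem z).2 hz) (by rw [l1_rot, l4_rot]; exact h))
  by_contra hcon
  apply hp.2
  refine interior_of ?_ ?_ ?_ ?_ ?_ ?_ ?_ ?_
  · by_contra h; exact hcon (c0 p hpK h)
  · by_contra h; exact hcon (c1 p hpK h)
  · by_contra h; exact hcon (c2 p hpK h)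
  · by_contra h; exact hcon (c3 p hpK h)
  · by_contra h; exact hcon (c4 p hpK h)
  · by_contra h; exact hcon (c5 p hpK h)
  · by_contra h; exact hcon (c6 p hpK h)
  · by_contra h; exact hcon (c7 p hpK h)

end main

end Rein83U
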