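import Mathlib

set_option autoImplicit false

namespace Rein83U

/-- `ca = √2/2` (cosine of 45 degrees). -/
noncomputable def ca : ℝ := Real.sqrt 2 / 2

/-- `cc = √2/4 = ca/2`: the hyperbola arcs are `X * Y = cc`. -/
noncomputable def cc : ℝ := Real.sqrt 2 / 4

/-- `Dst = √2 - 1/2`, the critical determinant of the smoothed octagon. -/
noncomputable def Dst : ℝ := Real.sqrt 2 - 1 / 2

/-- The corner condition: all tangent lines of the hyperbola arc `X * Y = cc`, `1/2 ≤ X ≤ ca`. -/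
def P (X Y : ℝ) : Prop := ∀ s ∈ Set.Icc (1 / 2 : ℝ) ca, 2 * cc * s ≤ cc * X + s ^ 2 * Y

/-- The eight side functions of the octagon `l k z = 1 - ⟨z, e_k⟩`, `e_k = (cos (k π/4), sin (k π/4))`. -/
noncomputable def l0 (z : ℝ × ℝ) : ℝ := 1 - z.1
noncomputable def l1 (z : ℝ × ℝ) : ℝ := 1 - ca * (z.1 + z.2)
noncomputable def l2 (z : ℝ × ℝ) : ℝ := 1 - z.2
noncomputable def l3 (z : ℝ × ℝ) : ℝ := 1 + ca * (z.1 - z.2)
noncomputable def l4 (z : ℝ × ℝ) : ℝ := 1 + z.1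
noncomputable def l5 (z : ℝ × ℝ) : ℝ := 1 + ca * (z.1 + z.2)
noncomputable def l6 (z : ℝ × ℝ) : ℝ := 1 + z.2
noncomputable def l7 (z : ℝ × ℝ) : ℝ := 1 - ca * (z.1 - z.2)

/-- The smoothed octagon. -/
def Kst : Set (ℝ × ℝ) := {z | P (l7 z) (l2 z) ∧ P (l0 z) (l3 z) ∧ P (l1 z) (l4 z) ∧ P (l2 z) (l5 z) ∧
  P (l3 z) (l6 z) ∧ P (l4 z) (l7 z) ∧ P (l5 z) (l0 z) ∧ P (l6 z) (l1 z)}

/-- Rotation by 45 degrees. -/
noncomputable def rot (z : ℝ × ℝ) : ℝ × ℝ := (ca * (z.1 - z.2), ca * (z.1 + z.2))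

theorem sq2 : Real.sqrt 2 * Real.sqrt 2 = 2 := Real.mul_self_sqrt (by norm_num)

theorem ca_sq : ca * ca = 1 / 2 := by
  unfold ca
  have := sq2
  nlinarith

theorem ca_pos : 0 < ca := by unfold ca; positivity

theorem cc_pos : 0 < cc := by unfold cc; positivity

theorem cc_eq : cc = ca / 2 := by unfold ca cc; ring

theorem ca_gt : (0.7071 : ℝ) < ca := by
  have h := ca_sq
  have h0 := ca_pos
  nlinarith

theorem ca_lt : ca < 0.7072 := by
  have h := ca_sq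
  have h0 := ca_pos
  nlinarith

theorem Dst_eq : Dst = 2 * ca - 1 / 2 := by unfold Dst ca; ring

theorem Dst_pos : 0 < Dst := by rw [Dst_eq]; linarith [ca_gt]

/-- The corner condition is monotone. -/
theorem P_mono {X Y X' Y' : ℝ} (h : P X Y) (hX : X ≤ X') (hY : Y ≤ Y') : P X' Y' := by
  intro s hs
  have h1 := h s hs
  have h2 : cc * X ≤ cc * X' := mul_le_mul_of_nonneg_left hX cc_pos.le
  have h3 : s ^ 2 * Y ≤ s ^ 2 * Y' := mul_le_mul_of_nonneg_left hY (by positivity)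
  linarith

/-- A point above the hyperbola satisfies the corner condition. -/
theorem P_of_mul {X Y : ℝ} (hX : 0 ≤ X) (hY : 0 ≤ Y) (h : cc ≤ X * Y) : P X Y := by
  intro s hs
  have hs0 : 0 < s := by linarith [hs.1]
  have hc := cc_pos
  -- (cc X + s² Y)² ≥ 4 cc s² X Y ≥ 4 cc² s²
  have h1 : (2 * cc * s) ^ 2 ≤ (cc * X + s ^ 2 * Y) ^ 2 := by
    have h2 : 0 ≤ (cc * X - s ^ 2 * Y) ^ 2 := sq_nonneg _
    have h3 : cc * s ^ 2 * cc ≤ cc * s ^ 2 * (X * Y) := mul_le_mul_of_nonneg_left h (by positivity)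
    nlinarith
  exact le_of_sq_le_sq h1 (by positivity)
where
  le_of_sq_le_sq {a b : ℝ} (h : a ^ 2 ≤ b ^ 2) (hb : 0 ≤ b) : a ≤ b := by
    exact (abs_le_of_sq_le_sq' h hb).2

/-- On the tangent line at `s = 1/2` (the side `l_k = 0`) beyond the arc. -/
theorem P_of_line {X Y : ℝ} (hY : ca ≤ Y) (h : 1 ≤ X + ca * Y) : P X Y := by
  intro s hs
  have h1 := hs.1
  have h2 := hs.2
  have hc := cc_pos
  rw [cc_eq]
  -- cc X + s² Y - 2 cc s ≥ (s - 1/2) (Y (s+1/2) - 2cc)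
  have e : ca / 2 * X ≥ ca / 2 * (1 - ca * Y) := by
    apply mul_le_mul_of_nonneg_left _ (by linarith [ca_pos])
    linarith
  have e2 : ca / 2 * (1 - ca * Y) = ca / 2 - Y / 4 := by
    have := ca_sq
    nlinarith
  have e3 : 0 ≤ (s - 1 / 2) * (Y * (s + 1 / 2) - ca) := by
    apply mul_nonneg (by linarith)
    nlinarith [ca_pos]
  nlinarith

/-- Symmetry of the corner condition. -/
theorem P_symm {X Y : ℝ} (h : P X Y) : P Y X := by
  intro s hs
  have hs0 : 0 < s := by linarith [hs.1]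
  have hc := cc_pos
  have h1 := h (cc / s) ⟨by
    rw [le_div_iff₀ hs0, cc_eq]; linarith [hs.2], by
    rw [div_le_iff₀ hs0, cc_eq]; nlinarith [hs.1, ca_pos]⟩
  -- 2 cc (cc/s) ≤ cc X + (cc/s)^2 Y ; multiply by s²/cc
  have h2 : 2 * cc * (cc / s) * (s ^ 2 / cc) ≤ (cc * X + (cc / s) ^ 2 * Y) * (s ^ 2 / cc) :=
    mul_le_mul_of_nonneg_right h1 (by positivity)
  have e1 : 2 * cc * (cc / s) * (s ^ 2 / cc) = 2 * cc * s := by field_simp
  have e2 : (cc * X + (cc / s) ^ 2 * Y) * (s ^ 2 / cc) = cc * Y + s ^ 2 * X := by field_simp; ring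
  linarith [e1, e2, h2]

/-- The side conditions. -/
theorem P_side1 {X Y : ℝ} (h : P X Y) : 1 ≤ X + ca * Y := by
  have h1 := h (1 / 2) ⟨le_refl _, by linarith [ca_gt]⟩
  rw [cc_eq] at h1
  have hsq := ca_sq
  have h0 := ca_pos
  have h2 := mul_le_mul_of_nonneg_left h1 (show (0:ℝ) ≤ 4 * ca by linarith)
  have e1 : 4 * ca * (2 * (ca / 2) * (1 / 2)) = 1 := by
    calc _ = 2 * (ca * ca) := by ring
      _ = 1 := by rw [hsq]; norm_num
  have e2 : 4 * ca * (ca / 2 * X + (1 / 2) ^ 2 * Y) = X + ca * Y := by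
    calc _ = 2 * (ca * ca) * X + ca * Y := by ring
      _ = X + ca * Y := by rw [hsq]; ring
  linarith

theorem P_side2 {X Y : ℝ} (h : P X Y) : 1 ≤ ca * X + Y := by
  have := P_side1 (P_symm h)
  linarith

/-- The product form in the arc range. -/
theorem P_mul {X Y : ℝ} (h : P X Y) (hX : 1 / 2 ≤ X) (hX' : X ≤ ca) : cc ≤ X * Y := by
  have h1 := h X ⟨hX, hX'⟩
  have hX0 : 0 < X := by linarith
  -- 2 cc X ≤ cc X + X² Y
  have h2 : cc * X ≤ X * (X * Y) := by nlinarith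
  nlinarith

end Rein83U
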