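import Pool.Agent.Rein83.U.Basic

set_option autoImplicit false

namespace Rein83U

open Set Topology

/-! ### tightness -/

theorem tight_arc {X Y s : ℝ} (h : P X Y) (h1 : 1 / 2 < s) (h2 : s < ca)
    (he : 2 * cc * s = cc * X + s ^ 2 * Y) : X = s ∧ s * Y = cc := by
  have hc := cc_pos
  have hs0 : 0 < s := by linarith
  have hf : ∀ t ∈ Icc (1 / 2 : ℝ) ca, 0 ≤ (t - s) * (Y * (t + s) - 2 * cc) := by
    intro t ht
    have := h t ht
    nlinarith
  have hY0 : 0 < Y := by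
    have := hf ca ⟨by linarith [ca_gt], le_rfl⟩
    have h3 : 0 ≤ Y * (ca + s) - 2 * cc := by
      by_contra hcon
      push Not at hcon
      have := mul_neg_of_pos_of_neg (sub_pos.mpr h2) hcon
      linarith
    by_contra hcon
    push Not at hcon
    have h4 : Y * (ca + s) ≤ 0 := mul_nonpos_of_nonpos_of_nonneg hcon (by linarith)
    linarith
  have hYs : s * Y = cc := by
    rcases lt_trichotomy (s * Y) cc with hlt | heq | hgt
    · exfalso
      have hts : s < min ca (cc / Y) := by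
        apply lt_min h2
        rw [lt_div_iff₀ hY0]; linarith
      have hle : min ca (cc / Y) * Y ≤ cc := by
        rw [← le_div_iff₀ hY0]; exact min_le_right _ _
      have := hf (min ca (cc / Y)) ⟨by linarith, min_le_left _ _⟩
      have h3 := mul_neg_of_pos_of_neg (sub_pos.mpr hts)
        (show Y * (min ca (cc / Y) + s) - 2 * cc < 0 by nlinarith)
      linarith
    · exact heq
    · exfalso
      have hts : max (1 / 2) (cc / Y) < s := by
        apply max_lt h1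
        rw [div_lt_iff₀ hY0]; linarith
      have hle : cc ≤ max (1 / 2) (cc / Y) * Y := by
        rw [← div_le_iff₀ hY0]; exact le_max_right _ _
      have := hf (max (1 / 2) (cc / Y)) ⟨le_max_left _ _, by linarith⟩
      have h3 := mul_neg_of_neg_of_pos (sub_neg.mpr hts)
        (show 0 < Y * (max (1 / 2) (cc / Y) + s) - 2 * cc by nlinarith)
      linarith
  refine ⟨?_, hYs⟩
  have h5 : cc * X = cc * s := by
    have : s ^ 2 * Y = s * cc := by rw [← hYs]; ring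
    linarith
  exact mul_left_cancel₀ hc.ne' h5

theorem tight_half {X Y : ℝ} (h : P X Y) (he : X + ca * Y = 1) : ca ≤ Y := by
  by_contra hcon
  push Not at hcon
  have hsq := ca_sq
  have h0 := ca_pos
  have hg := ca_gt
  have hl := ca_lt
  have hX : X = 1 - ca * Y := by linarith
  rcases le_or_gt X ca with h3 | h3
  · have h4 := P_mul h (by nlinarith) h3
    rw [hX, cc_eq] at h4
    nlinarith [mul_pos (sub_pos.mpr hcon) (sub_pos.mpr hcon)]
  · have h5 := P_side2 h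
    rw [hX] at h5 h3
    nlinarith

/-! ### membership of explicit points -/

theorem side_mem {s : ℝ} (h1 : ca - 1 ≤ s) (h2 : s ≤ 1 - ca) : ((s, 1) : ℝ × ℝ) ∈ Kst := by
  have hsq := ca_sq
  have h0 := ca_pos
  have hg := ca_gt
  have hl := ca_lt
  have hcc := cc_eq
  refine ⟨?_, ?_, ?_, ?_, ?_, ?_, ?_, ?_⟩ <;> simp only [l0, l1, l2, l3, l4, l5, l6, l7]
  · exact P_symm (P_of_line (by nlinarith) (by nlinarith))
  · exact P_symm (P_of_line (by nlinarith) (by nlinarith))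
  · exact P_of_line (by nlinarith) (by nlinarith)
  · exact P_of_line (by nlinarith) (by nlinarith)
  · exact P_of_line (by nlinarith) (by nlinarith)
  · apply P_of_mul (by nlinarith) (by nlinarith)
    have h3 : 1 ≤ 1 - ca * (s - 1) := by nlinarith
    have h4 : ca ≤ 1 + s := by linarith
    nlinarith
  · apply P_of_mul (by nlinarith) (by nlinarith)
    have h3 : 1 ≤ 1 + ca * (s + 1) := by nlinarith
    have h4 : ca ≤ 1 - s := by linarith
    nlinarith
  · exact P_symm (P_of_line (by nlinarith) (by nlinarith))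

theorem arc_aux {X Y : ℝ} (hX : 1 / 2 ≤ X) (hY : 1 / 2 ≤ Y) (h : X * Y = cc) :
    1 ≤ Y + ca * X := by
  have hsq := ca_sq
  have h0 := ca_pos
  have hcc := cc_eq
  have h1 : 1 ≤ (Y + ca * X) ^ 2 := by
    have : (Y + ca * X) ^ 2 = (Y - ca * X) ^ 2 + 4 * ca * (X * Y) := by ring
    rw [this, h, hcc]
    nlinarith [sq_nonneg (Y - ca * X)]
  have h2 : 0 ≤ Y + ca * X := by positivity
  nlinarith

theorem arc_mem {X Y : ℝ} (hX : 1 / 2 ≤ X) (hX' : X ≤ ca) (hY : 1 / 2 ≤ Y) (hY' : Y ≤ ca)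
    (h : X * Y = cc) : ((1 - Y + 2 * ca * (1 - X), 1 - Y) : ℝ × ℝ) ∈ Kst := by
  have hsq := ca_sq
  have h0 := ca_pos
  have hg := ca_gt
  have hl := ca_lt
  have hcc := cc_eq
  have ha := arc_aux hX hY h
  have hb := arc_aux hY hX (by rw [mul_comm]; exact h)
  have e7 : l7 ((1 - Y + 2 * ca * (1 - X), 1 - Y) : ℝ × ℝ) = X := by
    simp only [l7]; linear_combination (-2 * (1 - X)) * hsq
  have e2 : l2 ((1 - Y + 2 * ca * (1 - X), 1 - Y) : ℝ × ℝ) = Y := by
    simp only [l2]; ring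
  have e0 : l0 ((1 - Y + 2 * ca * (1 - X), 1 - Y) : ℝ × ℝ) = Y - 2 * ca * (1 - X) := by
    simp only [l0]; ring
  have e1 : l1 ((1 - Y + 2 * ca * (1 - X), 1 - Y) : ℝ × ℝ) = X - 2 * ca * (1 - Y) := by
    simp only [l1]; linear_combination (-2 * (1 - X)) * hsq
  have e3 : l3 ((1 - Y + 2 * ca * (1 - X), 1 - Y) : ℝ × ℝ) = 2 - X := by
    simp only [l3]; linear_combination (2 * (1 - X)) * hsq
  have e4 : l4 ((1 - Y + 2 * ca * (1 - X), 1 - Y) : ℝ × ℝ) = 2 - Y + 2 * ca * (1 - X) := by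
    simp only [l4]; ring
  have e5 : l5 ((1 - Y + 2 * ca * (1 - X), 1 - Y) : ℝ × ℝ) = 2 - X + 2 * ca * (1 - Y) := by
    simp only [l5]; linear_combination (2 * (1 - X)) * hsq
  have e6 : l6 ((1 - Y + 2 * ca * (1 - X), 1 - Y) : ℝ × ℝ) = 2 - Y := by
    simp only [l6]; ring
  have m1 : 0 ≤ ca * (1 - X) := mul_nonneg h0.le (by linarith)
  have m2 : 0 ≤ ca * (1 - Y) := mul_nonneg h0.le (by linarith)
  show P _ _ ∧ P _ _ ∧ P _ _ ∧ P _ _ ∧ P _ _ ∧ P _ _ ∧ P _ _ ∧ P _ _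
  rw [e0, e1, e2, e3, e4, e5, e6, e7]
  refine ⟨?_, ?_, ?_, ?_, ?_, ?_, ?_, ?_⟩
  · exact P_of_mul (by linarith) (by linarith) h.ge
  · exact P_of_line (by linarith) (by linarith)
  · refine P_of_line (by linarith) ?_
    have : X - 2 * ca * (1 - Y) + ca * (2 - Y + 2 * ca * (1 - X)) = 1 + ca * Y := by
      linear_combination (2 * (1 - X)) * hsq
    rw [this]; nlinarith
  · apply P_of_mul (by linarith) (by linarith)
    rw [hcc]; nlinarith
  · apply P_of_mul (by linarith) (by linarith)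
    rw [hcc]; nlinarith
  · apply P_of_mul (by linarith) (by linarith)
    rw [hcc]; nlinarith
  · refine P_symm (P_of_line (by linarith) ?_)
    have : Y - 2 * ca * (1 - X) + ca * (2 - X + 2 * ca * (1 - Y)) = 1 + ca * X := by
      linear_combination (2 * (1 - Y)) * hsq
    rw [this]; nlinarith
  · exact P_symm (P_of_line (by linarith) (by linarith))


/-! ### the hexagons -/

/-- Coordinates of a point from `l7` and `l2`. -/
theorem eq_of_l {p : ℝ × ℝ} {X Y : ℝ} (h7 : l7 p = X) (h2 : l2 p = Y) :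
    p = ((1 - Y + 2 * ca * (1 - X), 1 - Y) : ℝ × ℝ) := by
  have hsq := ca_sq
  obtain ⟨x, y⟩ := p
  simp only [l7, l2] at h7 h2
  have hy : y = 1 - Y := by linarith
  have hx : x = 1 - Y + 2 * ca * (1 - X) := by
    rw [← h7, ← h2]
    linear_combination (-2 * (x - y)) * hsq
  rw [hx, hy]

/-- The third hexagon vertex `r = rot (w, 1)`, `w = 2 ca Y - 1`, on side 3. -/
theorem r_mem {Y : ℝ} (hY : 1 / 2 ≤ Y) (hY' : Y ≤ ca) : ((Y - 2 * ca, Y) : ℝ × ℝ) ∈ Kst := by
  have hsq := ca_sq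
  have h0 := ca_pos
  have h1 : ((2 * ca * Y - 1, 1) : ℝ × ℝ) ∈ Kst := by
    apply side_mem <;> nlinarith [ca_gt]
  have h2 := (rot_mem _).mpr h1
  have e : rot ((2 * ca * Y - 1, 1) : ℝ × ℝ) = (Y - 2 * ca, Y) := by
    simp only [rot]
    ext
    · simp only; linear_combination (2 * Y) * hsq
    · simp only; linear_combination (2 * Y) * hsq
  rwa [e] at h2

theorem q_mem {X : ℝ} (hX : 1 / 2 ≤ X) (hX' : X ≤ ca) : ((1 - 2 * ca * X, 1) : ℝ × ℝ) ∈ Kst := by
  have hsq := ca_sq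
  have h0 := ca_pos
  apply side_mem <;> nlinarith [ca_gt]

theorem range_Y {X Y : ℝ} (hX : 1 / 2 ≤ X) (hX' : X ≤ ca) (h : X * Y = cc) :
    1 / 2 ≤ Y ∧ Y ≤ ca := by
  have hcc := cc_eq
  have h0 := ca_pos
  have hsq := ca_sq
  have hX0 : 0 < X := by linarith
  constructor
  · by_contra hcon
    push Not at hcon
    nlinarith
  · by_contra hcon
    push Not at hcon
    nlinarith

/-- arc points of corner 0 -/
theorem hexArc {s : ℝ} (hs : 1 / 2 ≤ s) (hs' : s ≤ ca) (p : ℝ × ℝ) (h7 : l7 p = s)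
    (h2 : l2 p = cc / s) : ∃ q ∈ Kst, q - p ∈ Kst ∧ p.1 * q.2 - p.2 * q.1 = Dst := by
  have hs0 : 0 < s := by linarith
  have hsq := ca_sq
  have hcc := cc_eq
  obtain ⟨Y, hY⟩ : ∃ Y, Y = cc / s := ⟨_, rfl⟩
  rw [← hY] at h2
  have hXY : s * Y = cc := by rw [hY]; field_simp
  obtain ⟨hY1, hY2⟩ := range_Y hs hs' hXY
  rw [eq_of_l h7 h2]
  refine ⟨(1 - 2 * ca * s, 1), q_mem hs hs', ?_, ?_⟩
  · have := r_mem hY1 hY2
    convert this using 1
    ext
    · simp only [Prod.fst_sub]; ring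
    · simp only [Prod.snd_sub]; ring
  · simp only
    rw [Dst_eq]
    linear_combination (-2 * ca) * hXY - 2 * ca * hcc - hsq

/-- side points, clockwise half -/
theorem hexSide_pos {t : ℝ} (h0t : 0 ≤ t) (h : t ≤ 1 - ca) :
    ∃ q ∈ Kst, q - ((t, 1) : ℝ × ℝ) ∈ Kst ∧ t * q.2 - 1 * q.1 = Dst := by
  have h0 := ca_pos
  have hsq := ca_sq
  have hcc := cc_eq
  obtain ⟨X, hX⟩ : ∃ X, X = ca * (1 - t) := ⟨_, rfl⟩
  have hX1 : 1 / 2 ≤ X := by rw [hX]; nlinarith
  have hX2 : X ≤ ca := by rw [hX]; nlinarith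
  have hX0 : 0 < X := by linarith
  obtain ⟨Y, hY⟩ : ∃ Y, Y = cc / X := ⟨_, rfl⟩
  have hXY : X * Y = cc := by rw [hY]; field_simp
  obtain ⟨hY1, hY2⟩ := range_Y hX1 hX2 hXY
  refine ⟨(Y - 2 * ca, Y), r_mem hY1 hY2, ?_, ?_⟩
  · have := Kst_neg _ (arc_mem hX1 hX2 hY1 hY2 hXY)
    convert this using 1
    ext
    · simp only [Prod.fst_sub, Prod.fst_neg]
      rw [hX]; linear_combination (-2 * (1 - t)) * hsq
    · simp only [Prod.snd_sub, Prod.snd_neg]; ring
  · simp only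
    rw [Dst_eq]
    have h3 : (1 - t) * Y = ca * ca := by
      have h4 : ca * ((1 - t) * Y) = ca * (ca * ca) := by
        rw [hX, hcc] at hXY
        rw [hsq]; linarith
      exact mul_left_cancel₀ h0.ne' h4
    linear_combination -h3 - hsq

/-- side points, counterclockwise half, on side 3 -/
theorem hexSide_neg {t : ℝ} (h0t : t ≤ 0) (h : ca - 1 ≤ t) :
    ∃ q ∈ Kst, q - ((t, 1) : ℝ × ℝ) ∈ Kst ∧ t * q.2 - 1 * q.1 = Dst := by
  have h0 := ca_pos
  have hsq := ca_sq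
  have hcc := cc_eq
  obtain ⟨Y, hY⟩ : ∃ Y, Y = ca * (1 + t) := ⟨_, rfl⟩
  have hY1 : 1 / 2 ≤ Y := by rw [hY]; nlinarith
  have hY2 : Y ≤ ca := by rw [hY]; nlinarith
  have hY0 : 0 < Y := by linarith
  obtain ⟨X, hX⟩ : ∃ X, X = cc / Y := ⟨_, rfl⟩
  have hXY : Y * X = cc := by rw [hX]; field_simp
  obtain ⟨hX1, hX2⟩ := range_Y hY1 hY2 hXY
  have hp := arc_mem hX1 hX2 hY1 hY2 (by rw [mul_comm]; exact hXY)
  have hq := q_mem hX1 hX2
  refine ⟨rotInv (-((1 - Y + 2 * ca * (1 - X), 1 - Y) : ℝ × ℝ)), ?_, ?_, ?_⟩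
  · rw [rotInv_mem]; exact Kst_neg _ hp
  · rw [← rot_mem, rot_sub, rot_rotInv]
    have := Kst_neg _ hq
    convert this using 1
    simp only [rot]
    ext
    · simp only [Prod.fst_sub, Prod.fst_neg]
      rw [hY]; linear_combination 0 * hsq
    · simp only [Prod.snd_sub, Prod.snd_neg]
      rw [hY]; ring
  · have h5 := rot_det ((t, 1) : ℝ × ℝ) (rotInv (-((1 - Y + 2 * ca * (1 - X), 1 - Y) : ℝ × ℝ)))
    rw [rot_rotInv] at h5
    simp only at h5
    rw [← h5]
    simp only [rot, Prod.fst_neg, Prod.snd_neg]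
    rw [Dst_eq]
    have e1 : ca * (t - 1) = Y - 2 * ca := by rw [hY]; ring
    have e2 : ca * (t + 1) = Y := by rw [hY]; ring
    rw [e1, e2]
    linear_combination (-2 * ca) * hXY - 2 * ca * hcc - hsq

/-- side points `(t, 1)` of side 2 -/
theorem hexSide {t : ℝ} (h : |t| ≤ 1 - ca) :
    ∃ q ∈ Kst, q - ((t, 1) : ℝ × ℝ) ∈ Kst ∧ t * q.2 - 1 * q.1 = Dst := by
  rw [abs_le] at h
  rcases le_total 0 t with h1 | h1
  · exact hexSide_pos h1 h.2
  · exact hexSide_neg h1 (by linarith [h.1])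

end Rein83U
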