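import Mathlib

set_option autoImplicit false

namespace Rein83U

open Set Topology

/-- The open trapezoid with vertices `-p, p, q, q-p` lies in the interior of `K`. -/
theorem trap_interior (K : Set (ℝ × ℝ)) (hconv : Convex ℝ K) (hsym : ∀ x ∈ K, -x ∈ K)
    (p q : ℝ × ℝ) (hp : p ∈ K) (hq : q ∈ K) (hqp : q - p ∈ K) (D : ℝ) (hD : 0 < D)
    (hdet : p.1 * q.2 - p.2 * q.1 = D) (x θ : ℝ) (h0 : 0 < θ) (h1 : θ < 1)
    (hx1 : -1 < x) (hx2 : x < 1 - θ) : x • p + θ • q ∈ interior K := by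
  have hDne : D ≠ 0 := hD.ne'
  let U : Set (ℝ × ℝ) := {z | 0 < p.1 * z.2 - p.2 * z.1} ∩ {z | p.1 * z.2 - p.2 * z.1 < D} ∩
    {z | -D < z.1 * q.2 - z.2 * q.1} ∩
    {z | z.1 * q.2 - z.2 * q.1 < D - (p.1 * z.2 - p.2 * z.1)}
  have hUo : IsOpen U := by
    refine IsOpen.inter (IsOpen.inter (IsOpen.inter ?_ ?_) ?_) ?_
    · exact isOpen_lt (by fun_prop) (by fun_prop)
    · exact isOpen_lt (by fun_prop) (by fun_prop)
    · exact isOpen_lt (by fun_prop) (by fun_prop)
    · exact isOpen_lt (by fun_prop) (by fun_prop)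
  have hUK : U ⊆ K := by
    rintro z ⟨⟨⟨hz1, hz2⟩, hz3⟩, hz4⟩
    simp only [Set.mem_ofPred_eq] at hz1 hz2 hz3 hz4
    set T := p.1 * z.2 - p.2 * z.1 with hT
    set Y := z.1 * q.2 - z.2 * q.1 with hY
    have hL : (1 - T / D) • (-p) + (T / D) • (q - p) ∈ K := by
      apply hconv (hsym p hp) hqp
      · rw [sub_nonneg, div_le_one hD]; exact hz2.le
      · exact (div_pos hz1 hD).le
      · ring
    have hR : (1 - T / D) • p + (T / D) • q ∈ K := by
      apply hconv hp hq
      · rw [sub_nonneg, div_le_one hD]; exact hz2.le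
      · exact (div_pos hz1 hD).le
      · ring
    have h2 : 0 < 2 - T / D := by
      have : T / D < 1 := by rw [div_lt_one hD]; exact hz2
      linarith
    have hs0 : 0 ≤ (Y / D + 1) / (2 - T / D) := by
      apply div_nonneg _ h2.le
      have : -1 < Y / D := by rw [lt_div_iff₀ hD]; linarith
      linarith
    have hs1 : (Y / D + 1) / (2 - T / D) ≤ 1 := by
      rw [div_le_one h2]
      have : Y / D < 1 - T / D := by
        rw [div_lt_iff₀ hD, sub_mul, div_mul_cancel₀ _ hDne]; linarith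
      linarith
    obtain ⟨s, hs, hs0', hs1'⟩ : ∃ s : ℝ, s * (2 - T / D) = Y / D + 1 ∧ 0 ≤ s ∧ s ≤ 1 :=
      ⟨_, div_mul_cancel₀ _ h2.ne', hs0, hs1⟩
    have key := hconv hL hR (sub_nonneg.mpr hs1') hs0' (by ring)
    have hz : z = (1 - s) • ((1 - T / D) • (-p) + (T / D) • (q - p)) +
        s • ((1 - T / D) • p + (T / D) • q) := by
      have e : (1 - s) • ((1 - T / D) • (-p) + (T / D) • (q - p)) +
        s • ((1 - T / D) • p + (T / D) • q) =
        (Y / D) • p + (T / D) • q := by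
        ext
        · simp only [Prod.fst_add, Prod.smul_fst, Prod.fst_neg, Prod.fst_sub, smul_eq_mul]
          linear_combination p.1 * hs
        · simp only [Prod.snd_add, Prod.smul_snd, Prod.snd_neg, Prod.snd_sub, smul_eq_mul]
          linear_combination p.2 * hs
      rw [e]
      ext
      · simp only [Prod.fst_add, Prod.smul_fst, smul_eq_mul]
        field_simp
        rw [hY, hT, ← hdet]; ring
      · simp only [Prod.snd_add, Prod.smul_snd, smul_eq_mul]
        field_simp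
        rw [hY, hT, ← hdet]; ring
    rw [hz]; exact key
  refine mem_interior.mpr ⟨U, hUK, hUo, ?_⟩
  refine ⟨⟨⟨?_, ?_⟩, ?_⟩, ?_⟩
  · simp only [Set.mem_ofPred_eq, Prod.fst_add, Prod.smul_fst, smul_eq_mul, Prod.snd_add, Prod.smul_snd]
    have : p.1 * (x * p.2 + θ * q.2) - p.2 * (x * p.1 + θ * q.1) = θ * D := by rw [← hdet]; ring
    rw [this]; positivity
  · simp only [Set.mem_ofPred_eq, Prod.fst_add, Prod.smul_fst, smul_eq_mul, Prod.snd_add, Prod.smul_snd]
    have : p.1 * (x * p.2 + θ * q.2) - p.2 * (x * p.1 + θ * q.1) = θ * D := by rw [← hdet]; ring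
    rw [this]; nlinarith
  · simp only [Set.mem_ofPred_eq, Prod.fst_add, Prod.smul_fst, smul_eq_mul, Prod.snd_add, Prod.smul_snd]
    have : (x * p.1 + θ * q.1) * q.2 - (x * p.2 + θ * q.2) * q.1 = x * D := by rw [← hdet]; ring
    rw [this]; nlinarith
  · simp only [Set.mem_ofPred_eq, Prod.fst_add, Prod.smul_fst, smul_eq_mul, Prod.snd_add, Prod.smul_snd]
    have : (x * p.1 + θ * q.1) * q.2 - (x * p.2 + θ * q.2) * q.1 = x * D := by rw [← hdet]; ring
    have h' : p.1 * (x * p.2 + θ * q.2) - p.2 * (x * p.1 + θ * q.1) = θ * D := by rw [← hdet]; ring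
    rw [this, h']; nlinarith

/-- If every frontier point `p` of the symmetric convex body `K` is completed by some `q` to a
hexagon `±p, ±q, ±(q-p)` in `K` with `det (p, q) = D`, then every `K`-admissible lattice has
determinant at least `D`. -/
theorem lattice (K : Set (ℝ × ℝ)) (hc : IsCompact K) (hconv : Convex ℝ K) (h0 : K ∈ 𝓝 0)
    (hsym : ∀ x ∈ K, -x ∈ K) (D : ℝ) (hD : 0 < D)
    (hhex : ∀ p ∈ frontier K, ∃ q ∈ K, q - p ∈ K ∧ p.1 * q.2 - p.2 * q.1 = D)
    (a b : ℝ × ℝ) (hab : a.1 * b.2 - a.2 * b.1 ≠ 0)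
    (hadm : ∀ m n : ℤ, (m ≠ 0 ∨ n ≠ 0) → (m : ℝ) • a + (n : ℝ) • b ∉ interior K) :
    D ≤ |a.1 * b.2 - a.2 * b.1| := by
  by_contra hlt
  push Not at hlt
  set d := a.1 * b.2 - a.2 * b.1 with hd
  have hcl : closure K = K := hc.isClosed.closure_eq
  have habs : Absorbent ℝ K := absorbent_nhds_zero h0
  obtain ⟨R, hR⟩ := hc.isBounded.subset_closedBall (0 : ℝ × ℝ)
  let f : ℤ × ℤ → ℝ := fun w => gauge K ((w.1 : ℝ) • a + (w.2 : ℝ) • b)
  have hfnn : ∀ w, 0 ≤ f w := fun w => gauge_nonneg _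
  -- points of bounded gauge are bounded
  have hbd : ∀ z : ℝ × ℝ, ∀ C : ℝ, 0 < C → gauge K z ≤ C → |z.1| ≤ C * R ∧ |z.2| ≤ C * R := by
    intro z C hC hz
    have h1 : gauge K (C⁻¹ • z) ≤ 1 := by
      rw [gauge_smul_of_nonneg (inv_nonneg.mpr hC.le), smul_eq_mul, inv_mul_le_iff₀ hC]
      simpa using hz
    rw [gauge_le_one_iff_mem_closure hconv h0, hcl] at h1
    have h2 := hR h1
    rw [mem_closedBall_zero_iff, norm_smul, norm_inv, Real.norm_of_nonneg hC.le,
      inv_mul_le_iff₀ hC] at h2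
    constructor
    · exact (norm_fst_le z).trans h2
    · exact (norm_snd_le z).trans h2
  let S : Set (ℤ × ℤ) := {w | (w.1 ≠ 0 ∨ w.2 ≠ 0) ∧ f w ≤ f (1, 0)}
  have hfin : S.Finite := by
    set C := f (1, 0) + 1 with hCdef
    have hC : 0 < C := by have := hfnn (1, 0); linarith
    obtain ⟨M, hM⟩ := exists_nat_ge ((|b.2| + |b.1| + |a.1| + |a.2|) * (C * R) / |d|)
    apply Set.Finite.subset ((Set.finite_Icc (-(M : ℤ)) M).prod (Set.finite_Icc (-(M : ℤ)) M))
    rintro ⟨m, n⟩ ⟨-, hw⟩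
    have hw' : gauge K ((m : ℝ) • a + (n : ℝ) • b) ≤ C := by
      have : f (m, n) ≤ C := by linarith
      exact this
    obtain ⟨hz1, hz2⟩ := hbd _ C hC hw'
    simp only [Prod.fst_add, Prod.smul_fst, smul_eq_mul, Prod.snd_add, Prod.smul_snd] at hz1 hz2
    have hdp : 0 < |d| := abs_pos.mpr hab
    have hCR : 0 ≤ C * R := le_trans (abs_nonneg _) hz1
    have key : ∀ t : ℤ, |(t : ℝ) * d| ≤ (|b.2| + |b.1| + |a.1| + |a.2|) * (C * R) →
        t ∈ Set.Icc (-(M : ℤ)) M := by
      intro t ht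
      rw [abs_mul, ← le_div_iff₀ hdp] at ht
      have h3 : |(t : ℝ)| ≤ M := ht.trans hM
      rw [abs_le] at h3
      constructor
      · exact_mod_cast h3.1
      · exact_mod_cast h3.2
    refine ⟨key m ?_, key n ?_⟩
    · have e : (m : ℝ) * d = (m * a.1 + n * b.1) * b.2 - (m * a.2 + n * b.2) * b.1 := by
        rw [hd]; ring
      rw [e]
      calc |(m * a.1 + n * b.1) * b.2 - (m * a.2 + n * b.2) * b.1|
          ≤ |(m * a.1 + n * b.1) * b.2| + |(m * a.2 + n * b.2) * b.1| := abs_sub _ _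
        _ = |m * a.1 + n * b.1| * |b.2| + |m * a.2 + n * b.2| * |b.1| := by
            rw [abs_mul, abs_mul]
        _ ≤ (C * R) * |b.2| + (C * R) * |b.1| := by gcongr
        _ ≤ (|b.2| + |b.1| + |a.1| + |a.2|) * (C * R) := by
            have h4 : 0 ≤ (|a.1| + |a.2|) * (C * R) := by positivity
            nlinarith
    · have e : (n : ℝ) * d = a.1 * (m * a.2 + n * b.2) - a.2 * (m * a.1 + n * b.1) := by
        rw [hd]; ring
      rw [e]
      calc |a.1 * (m * a.2 + n * b.2) - a.2 * (m * a.1 + n * b.1)|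
          ≤ |a.1 * (m * a.2 + n * b.2)| + |a.2 * (m * a.1 + n * b.1)| := abs_sub _ _
        _ = |a.1| * |m * a.2 + n * b.2| + |a.2| * |m * a.1 + n * b.1| := by
            rw [abs_mul, abs_mul]
        _ ≤ |a.1| * (C * R) + |a.2| * (C * R) := by gcongr
        _ ≤ (|b.2| + |b.1| + |a.1| + |a.2|) * (C * R) := by
            have h4 : 0 ≤ (|b.2| + |b.1|) * (C * R) := by positivity
            nlinarith
  obtain ⟨w0, ⟨hw0ne, hw0le⟩, hmin⟩ := Set.exists_min_image S f hfin
    ⟨(1, 0), Or.inl one_ne_zero, le_rfl⟩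
  have hmin' : ∀ w : ℤ × ℤ, (w.1 ≠ 0 ∨ w.2 ≠ 0) → f w0 ≤ f w := by
    intro w hw
    by_cases h : f w ≤ f (1, 0)
    · exact hmin w ⟨hw, h⟩
    · push Not at h; linarith
  obtain ⟨m, n⟩ := w0
  set lam := f (m, n) with hlam
  have hlam1 : 1 ≤ lam := by
    by_contra hcon
    push Not at hcon
    exact hadm m n hw0ne ((gauge_lt_one_iff_mem_interior hconv h0).mp hcon)
  have hlam0 : 0 < lam := by linarith
  -- primitivity
  have hprim : Int.gcd m n = 1 := by
    have hgpos : Int.gcd m n ≠ 0 := by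
      intro h
      rw [Int.gcd_eq_zero_iff] at h
      rcases hw0ne with h' | h'
      · exact h' h.1
      · exact h' h.2
    by_contra hne
    have hg2 : 2 ≤ Int.gcd m n := by omega
    obtain ⟨m', hm'⟩ := Int.gcd_dvd_left (a := m) (b := n)
    obtain ⟨n', hn'⟩ := Int.gcd_dvd_right (a := m) (b := n)
    set G := Int.gcd m n with hG
    have hGr : (2 : ℝ) ≤ (G : ℝ) := by exact_mod_cast hg2
    have hne' : m' ≠ 0 ∨ n' ≠ 0 := by
      rcases hw0ne with h' | h'
      · left; rintro rfl; apply h'; simpa using hm'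
      · right; rintro rfl; apply h'; simpa using hn'
    have h1 := hmin' (m', n') hne'
    have h2 : lam = (G : ℝ) * f (m', n') := by
      rw [hlam]
      simp only [f]
      have : ((m : ℝ)) • a + ((n : ℝ)) • b = (G : ℝ) • ((m' : ℝ) • a + (n' : ℝ) • b) := by
        have hm2 : (m : ℝ) = (G : ℝ) * m' := by exact_mod_cast hm'
        have hn2 : (n : ℝ) = (G : ℝ) * n' := by exact_mod_cast hn'
        rw [hm2, hn2, smul_add, smul_smul, smul_smul]
      rw [this, gauge_smul_of_nonneg (by positivity), smul_eq_mul]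
    have h3 := hfnn (m', n')
    nlinarith
  have hbez := Int.gcd_eq_gcd_ab m n
  rw [hprim] at hbez
  set v := Int.gcdA m n
  set u := -Int.gcdB m n with hu
  have hmv : m * v - n * u = 1 := by rw [hu]; push_cast at hbez; linarith
  have hmvR : (m : ℝ) * v - n * u = 1 := by exact_mod_cast hmv
  set p0 : ℝ × ℝ := (m : ℝ) • a + (n : ℝ) • b with hp0
  set p : ℝ × ℝ := lam⁻¹ • p0 with hp
  have hpf : p ∈ frontier K := by
    rw [← gauge_eq_one_iff_mem_frontier hconv h0, hp, gauge_smul_of_nonneg (by positivity),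
      smul_eq_mul]
    have : gauge K p0 = lam := rfl
    rw [this]; field_simp
  have hpK : p ∈ K := hc.isClosed.frontier_subset hpf
  obtain ⟨q, hqK, hqpK, hdet⟩ := hhex p hpf
  -- sign
  obtain ⟨ε, hε, hεd⟩ : ∃ ε : ℤ, (ε = 1 ∨ ε = -1) ∧ (ε : ℝ) * d = |d| := by
    rcases lt_or_gt_of_ne hab with h | h
    · exact ⟨-1, Or.inr rfl, by rw [abs_of_neg h]; push_cast; ring⟩
    · exact ⟨1, Or.inl rfl, by rw [abs_of_pos h]; push_cast; ring⟩
  set q0 : ℝ × ℝ := ((ε * u : ℤ) : ℝ) • a + ((ε * v : ℤ) : ℝ) • b with hq0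
  set q' : ℝ × ℝ := lam⁻¹ • q0 with hq'
  have hdetpq : p.1 * q'.2 - p.2 * q'.1 = |d| / lam ^ 2 := by
    rw [← hεd, hp, hq', hp0, hq0, hd]
    simp only [Prod.fst_add, Prod.smul_fst, smul_eq_mul, Prod.snd_add, Prod.smul_snd]
    push_cast
    field_simp
    linear_combination (ε : ℝ) * (a.1 * b.2 - a.2 * b.1) * hmvR
  set θ := |d| / lam ^ 2 / D with hθ
  have hdpos : 0 < |d| := abs_pos.mpr hab
  have hθ0 : 0 < θ := by positivity
  have hθ1 : θ < 1 := by
    rw [hθ, div_div, div_lt_one (by positivity)]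
    have h5 : 1 ≤ lam ^ 2 := one_le_pow₀ hlam1
    nlinarith
  set x := (q'.1 * q.2 - q'.2 * q.1) / D with hx
  have hq'eq : q' = x • p + θ • q := by
    have hDne : D ≠ 0 := hD.ne'
    rw [hθ, ← hdetpq, hx]
    ext
    · simp only [Prod.fst_add, Prod.smul_fst, smul_eq_mul]
      field_simp
      rw [← hdet]; ring
    · simp only [Prod.snd_add, Prod.smul_snd, smul_eq_mul]
      field_simp
      rw [← hdet]; ring
  set k : ℤ := ⌈1 - θ - x⌉ - 1 with hk
  have hk1 : (k : ℝ) < 1 - θ - x := by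
    have := Int.ceil_lt_add_one (1 - θ - x)
    rw [hk]; push_cast; linarith
  have hk2 : 1 - θ - x ≤ k + 1 := by
    have := Int.le_ceil (1 - θ - x)
    rw [hk]; push_cast; linarith
  have hzint := trap_interior K hconv hsym p q hpK hqK hqpK D hD hdet (x + k) θ hθ0 hθ1
    (by linarith) (by linarith)
  have hz : (x + k) • p + θ • q = lam⁻¹ • (((ε * u + k * m : ℤ) : ℝ) • a +
      ((ε * v + k * n : ℤ) : ℝ) • b) := by
    have e1 : (x + k) • p + θ • q = q' + (k : ℝ) • p := by rw [hq'eq, add_smul]; abel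
    rw [e1, hq', hp, hq0, hp0]
    push_cast
    module
  rw [hz] at hzint
  have hg := (gauge_lt_one_iff_mem_interior hconv h0).mpr hzint
  rw [gauge_smul_of_nonneg (by positivity), smul_eq_mul, inv_mul_lt_iff₀ hlam0, mul_one] at hg
  have hne : (ε * u + k * m ≠ 0) ∨ (ε * v + k * n ≠ 0) := by
    by_contra hcon
    push Not at hcon
    obtain ⟨hc1, hc2⟩ := hcon
    have : ε * (m * v - n * u) = 0 := by linear_combination m * hc2 - n * hc1
    rw [hmv, mul_one] at this
    rcases hε with h | h <;> omega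
  have := hmin' (ε * u + k * m, ε * v + k * n) hne
  exact absurd hg (not_lt.mpr this)

end Rein83U
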