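import Pool.Agent.Rein83.U.Bdry
import Pool.Agent.Rein83.U.Lattice
import Pool.Agent.Rein83.U.Hex
import Pool.Agent.Rein83.U.Area

set_option autoImplicit false

namespace Rein83U

open Set

/-- Upper bound of the Reinhardt problem: the smoothed octagon. -/
theorem upper :
    sInf {r : ℝ | ∃ K : Set (ℝ × ℝ), IsCompact K ∧ Convex ℝ K ∧ (interior K).Nonempty ∧
      (∀ x ∈ K, -x ∈ K) ∧
      r = (MeasureTheory.volume K).toReal /
        sInf {d : ℝ | ∃ a b : ℝ × ℝ, d = abs (a.1 * b.2 - a.2 * b.1) ∧ d ≠ 0 ∧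
          ∀ m n : ℤ, (m ≠ 0 ∨ n ≠ 0) → (m : ℝ) • a + (n : ℝ) • b ∉ interior K}}
    ≤ 4 * (8 - 4 * Real.sqrt 2 - Real.log 2) / (2 * Real.sqrt 2 - 1) := by
  have hbdd : BddBelow {r : ℝ | ∃ K : Set (ℝ × ℝ), IsCompact K ∧ Convex ℝ K ∧ (interior K).Nonempty ∧
      (∀ x ∈ K, -x ∈ K) ∧
      r = (MeasureTheory.volume K).toReal /
        sInf {d : ℝ | ∃ a b : ℝ × ℝ, d = abs (a.1 * b.2 - a.2 * b.1) ∧ d ≠ 0 ∧
          ∀ m n : ℤ, (m ≠ 0 ∨ n ≠ 0) → (m : ℝ) • a + (n : ℝ) • b ∉ interior K}} := by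
    refine ⟨0, ?_⟩
    rintro r ⟨K, -, -, -, -, rfl⟩
    apply div_nonneg ENNReal.toReal_nonneg
    apply Real.sInf_nonneg
    rintro d ⟨a, b, rfl, -, -⟩
    exact abs_nonneg _
  refine le_trans (csInf_le hbdd ⟨Kst, Kst_compact, Kst_convex, ?_, Kst_neg, rfl⟩) ?_
  · exact ⟨0, mem_interior_iff_mem_nhds.2 Kst_nhds⟩
  have hs2 := sq2
  have hs0 : 0 < Real.sqrt 2 := by positivity
  have hs : Real.sqrt 2 < 1.4143 := by nlinarith
  have hs' : 1.4142 < Real.sqrt 2 := by nlinarith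
  have hlog : Real.log 2 < 0.6931471808 := Real.log_two_lt_d9
  have hnum : 0 ≤ 16 - 8 * Real.sqrt 2 - 2 * Real.log 2 := by linarith
  have hvol : (MeasureTheory.volume Kst).toReal ≤ 16 - 8 * Real.sqrt 2 - 2 * Real.log 2 := by
    have := ENNReal.toReal_mono ENNReal.ofReal_ne_top area
    rwa [ENNReal.toReal_ofReal hnum] at this
  have hD := Dst_pos
  set S := {d : ℝ | ∃ a b : ℝ × ℝ, d = abs (a.1 * b.2 - a.2 * b.1) ∧ d ≠ 0 ∧
          ∀ m n : ℤ, (m ≠ 0 ∨ n ≠ 0) → (m : ℝ) • a + (n : ℝ) • b ∉ interior Kst} with hS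
  have htarget : 4 * (8 - 4 * Real.sqrt 2 - Real.log 2) / (2 * Real.sqrt 2 - 1)
      = (16 - 8 * Real.sqrt 2 - 2 * Real.log 2) / Dst := by
    have h1 : 2 * Real.sqrt 2 - 1 ≠ 0 := by intro h; linarith
    have h2 : Dst ≠ 0 := hD.ne'
    rw [div_eq_div_iff h1 h2]
    unfold Dst
    ring
  rw [htarget]
  rcases S.eq_empty_or_nonempty with hE | hne
  · rw [hE, Real.sInf_empty, div_zero]
    exact div_nonneg hnum hD.le
  · have hlow : Dst ≤ sInf S := by
      apply le_csInf hne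
      rintro d ⟨a, b, rfl, hd, hadm⟩
      refine lattice Kst Kst_compact Kst_convex Kst_nhds Kst_neg Dst hD ?_ a b ?_ hadm
      · intro p hp
        exact hex_of (fun p s h1 h2 h3 h4 => hexArc h1 h2 p h3 h4) (fun t h => hexSide h) p hp
      · intro h
        exact hd (by rw [h, abs_zero])
    calc (MeasureTheory.volume Kst).toReal / sInf S
        ≤ (16 - 8 * Real.sqrt 2 - 2 * Real.log 2) / sInf S :=
          div_le_div_of_nonneg_right hvol (by linarith)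
      _ ≤ (16 - 8 * Real.sqrt 2 - 2 * Real.log 2) / Dst :=
          div_le_div_of_nonneg_left hnum hD hlow

end Rein83U
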